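import Pool.Agent.Helper1.LE.Defs

/-!
P3: compression of a bounded homeomorphism.
-/

set_option autoImplicit false

open Set Filter Topology

namespace Pool.Agent.Helper1.LE

section Cmp

variable {V : Type} [NormedAddCommGroup V] [NormedSpace ℝ V]

/-- The radial compression of `V` onto the open ball of radius two. -/
noncomputable def cG (y : V) : V := (2 / max ‖y‖ 1 - 1 / max ‖y‖ 1 ^ 2) • y

/-- The inverse of `cG`. -/
noncomputable def cH (x : V) : V := (1 / ((2 - max ‖x‖ 1) * max ‖x‖ 1)) • x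

omit [NormedSpace ℝ V] in
theorem one_le_mx (y : V) : 1 ≤ max ‖y‖ 1 := le_max_right _ _

theorem mx_cG (y : V) : max ‖cG y‖ 1 = 2 - 1 / max ‖y‖ 1 := by
  rcases le_total ‖y‖ 1 with h | h
  · have h1 : cG y = y := by
      rw [cG, max_eq_right h]; norm_num
    rw [h1, max_eq_right h]; norm_num
  · have h0 : 0 < ‖y‖ := by linarith
    have h1 : ‖cG y‖ = 2 - 1 / ‖y‖ := by
      rw [cG, max_eq_left h, norm_smul, Real.norm_eq_abs, abs_of_nonneg]
      · field_simp
      · rw [sub_nonneg, div_le_div_iff₀ (by positivity) h0]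
        nlinarith
    rw [h1, max_eq_left h, max_eq_left]
    have : 1 / ‖y‖ ≤ 1 := by rw [div_le_one h0]; exact h
    linarith

theorem cG_lt (y : V) : ‖cG y‖ < 2 := by
  have h := mx_cG y
  have h1 := le_max_left ‖cG y‖ 1
  have h2 : 0 < 1 / max ‖y‖ 1 := by have := one_le_mx y; positivity
  linarith

theorem cH_cG (y : V) : cH (cG y) = y := by
  have h1 := one_le_mx y
  rw [cH, mx_cG]
  set m := max ‖y‖ 1 with hm
  rw [cG, ← hm, smul_smul]
  have hm0 : m ≠ 0 := by positivity
  have h3 : (2 * m - 1) ≠ 0 := by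
    have : 0 < 2 * m - 1 := by linarith
    exact this.ne'
  have h2 : 1 / ((2 - (2 - 1 / m)) * (2 - 1 / m)) * (2 / m - 1 / m ^ 2) = 1 := by
    have e1 : (2 - (2 - 1 / m)) * (2 - 1 / m) = (2 * m - 1) / m ^ 2 := by field_simp; ring
    have e2 : 2 / m - 1 / m ^ 2 = (2 * m - 1) / m ^ 2 := by field_simp
    rw [e1, e2]
    field_simp
  rw [h2, one_smul]

theorem mx_cH (x : V) (hx : ‖x‖ < 2) : max ‖cH x‖ 1 = 1 / (2 - max ‖x‖ 1) := by
  rcases le_total ‖x‖ 1 with h | h
  · have h1 : cH x = x := by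
      rw [cH, max_eq_right h]; norm_num
    rw [h1, max_eq_right h]; norm_num
  · have h0 : 0 < ‖x‖ := by linarith
    have h2 : 0 < 2 - ‖x‖ := by linarith
    have h1 : ‖cH x‖ = 1 / (2 - ‖x‖) := by
      rw [cH, max_eq_left h, norm_smul, Real.norm_eq_abs, abs_of_nonneg (by positivity)]
      field_simp
    rw [h1, max_eq_left h, max_eq_left]
    rw [le_div_iff₀ h2]
    linarith

theorem cG_cH (x : V) (hx : ‖x‖ < 2) : cG (cH x) = x := by
  have h1 := one_le_mx x
  have h2 : max ‖x‖ 1 < 2 := max_lt hx (by norm_num)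
  rw [cG, mx_cH x hx]
  set m := max ‖x‖ 1 with hm
  rw [cH, ← hm, smul_smul]
  have hm0 : m ≠ 0 := by positivity
  have h3 : (2 - m) ≠ 0 := by
    have : 0 < 2 - m := by linarith
    exact this.ne'
  have h4 : (2 / (1 / (2 - m)) - 1 / (1 / (2 - m)) ^ 2) * (1 / ((2 - m) * m)) = 1 := by
    field_simp
    ring
  rw [h4, one_smul]

theorem cG_lip (y y' : V) : ‖cG y - cG y'‖ ≤ 4 / max ‖y‖ 1 * ‖y - y'‖ := by
  have h1 := one_le_mx y
  have h1' := one_le_mx y'
  have hmm : |max ‖y'‖ 1 - max ‖y‖ 1| ≤ ‖y - y'‖ := by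
    refine (abs_max_sub_max_le_abs _ _ _).trans ?_
    rw [norm_sub_rev]
    exact abs_norm_sub_norm_le _ _
  have hy' : ‖y'‖ ≤ max ‖y'‖ 1 := le_max_left _ _
  set m := max ‖y‖ 1 with hm
  set m' := max ‖y'‖ 1 with hm'
  have hm0 : 0 < m := by linarith
  have hm0' : 0 < m' := by linarith
  have e : cG y - cG y' = (2 / m - 1 / m ^ 2) • (y - y') +
      ((2 / m - 1 / m ^ 2) - (2 / m' - 1 / m' ^ 2)) • y' := by
    rw [cG, cG, ← hm, ← hm']
    module
  have ha : |2 / m - 1 / m ^ 2| ≤ 2 / m := by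
    rw [abs_of_nonneg]
    · have : 0 < 1 / m ^ 2 := by positivity
      linarith
    · rw [sub_nonneg, div_le_div_iff₀ (by positivity) hm0]
      nlinarith
  have hb : |(2 / m - 1 / m ^ 2) - (2 / m' - 1 / m' ^ 2)| ≤ 2 / (m * m') * |m' - m| := by
    have e1 : (2 / m - 1 / m ^ 2) - (2 / m' - 1 / m' ^ 2) =
        ((2 - (1 / m + 1 / m')) / (m * m')) * (m' - m) := by
      field_simp
      ring
    rw [e1, abs_mul]
    have h2 : |(2 - (1 / m + 1 / m')) / (m * m')| ≤ 2 / (m * m') := by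
      rw [abs_div, abs_of_pos (mul_pos hm0 hm0')]
      have : |2 - (1 / m + 1 / m')| ≤ 2 := by
        have h3 : 1 / m ≤ 1 := by rw [div_le_one hm0]; exact h1
        have h4 : 1 / m' ≤ 1 := by rw [div_le_one hm0']; exact h1'
        have h5 : 0 < 1 / m := by positivity
        have h6 : 0 < 1 / m' := by positivity
        rw [abs_le]; constructor <;> linarith
      gcongr
    gcongr
  rw [e]
  calc ‖(2 / m - 1 / m ^ 2) • (y - y') + ((2 / m - 1 / m ^ 2) - (2 / m' - 1 / m' ^ 2)) • y'‖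
      ≤ ‖(2 / m - 1 / m ^ 2) • (y - y')‖ +
        ‖((2 / m - 1 / m ^ 2) - (2 / m' - 1 / m' ^ 2)) • y'‖ := norm_add_le _ _
    _ = |2 / m - 1 / m ^ 2| * ‖y - y'‖ +
        |(2 / m - 1 / m ^ 2) - (2 / m' - 1 / m' ^ 2)| * ‖y'‖ := by
        rw [norm_smul, norm_smul, Real.norm_eq_abs, Real.norm_eq_abs]
    _ ≤ 2 / m * ‖y - y'‖ + 2 / (m * m') * ‖y - y'‖ * m' := by
        gcongr
        exact hb.trans (by gcongr)
    _ = 4 / m * ‖y - y'‖ := by field_simp; ring

theorem cG_cont : Continuous (cG : V → V) := by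
  have : LipschitzWith 4 (cG : V → V) := by
    refine LipschitzWith.of_dist_le_mul fun y y' => ?_
    rw [dist_eq_norm, dist_eq_norm]
    refine (cG_lip y y').trans ?_
    have h1 := one_le_mx y
    have : (4 : ℝ) / max ‖y‖ 1 ≤ 4 := by
      rw [div_le_iff₀ (by linarith)]; linarith
    have h3 : ((4 : NNReal) : ℝ) = 4 := rfl
    rw [h3]
    gcongr
  exact this.continuous

theorem cH_cont (x : V) (hx : ‖x‖ < 2) : ContinuousAt (cH : V → V) x := by
  have h1 := one_le_mx x
  have h2 : max ‖x‖ 1 < 2 := max_lt hx (by norm_num)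
  have hc : Continuous fun x : V => max ‖x‖ 1 := continuous_norm.max continuous_const
  refine ContinuousAt.smul (ContinuousAt.div continuousAt_const ?_ ?_) continuousAt_id
  · exact ((continuous_const.sub hc).mul hc).continuousAt
  · have h3 : 0 < 2 - max ‖x‖ 1 := by linarith
    have : 0 < (2 - max ‖x‖ 1) * max ‖x‖ 1 := mul_pos h3 (by linarith)
    exact this.ne'

open Classical in
/-- The compressed map. -/
noncomputable def cT (F : V → V) (x : V) : V := if ‖x‖ < 2 then cG (F (cH x)) else x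

theorem cT_near {F : V → V} {ε : ℝ} (hε : 0 ≤ ε) (hF : ∀ x, ‖F x - x‖ ≤ ε) (x : V) :
    ‖cT F x - x‖ ≤ 4 * ε * max 0 (2 - max ‖x‖ 1) := by
  by_cases hx : ‖x‖ < 2
  · rw [cT, if_pos hx]
    have h2 : max ‖x‖ 1 < 2 := max_lt hx (by norm_num)
    have h1 := one_le_mx x
    have h0 := cG_lip (cH x) (F (cH x))
    rw [cG_cH x hx, mx_cH x hx, norm_sub_rev, norm_sub_rev (cH x)] at h0
    refine h0.trans ?_
    rw [max_eq_right (show (0 : ℝ) ≤ 2 - max ‖x‖ 1 by linarith)]
    have h3 := hF (cH x)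
    rw [div_div_eq_mul_div, div_one]
    have h4 : 0 ≤ 4 * (2 - max ‖x‖ 1) := by linarith
    calc 4 * (2 - max ‖x‖ 1) * ‖F (cH x) - cH x‖ ≤ 4 * (2 - max ‖x‖ 1) * ε := by gcongr
      _ = 4 * ε * (2 - max ‖x‖ 1) := by ring
  · rw [cT, if_neg hx, sub_self, norm_zero]
    positivity

theorem cT_cont {F : V → V} (hFc : Continuous F) {ε : ℝ} (hε : 0 ≤ ε)
    (hF : ∀ x, ‖F x - x‖ ≤ ε) : Continuous (cT F) := by
  rw [continuous_iff_continuousAt]
  intro x
  by_cases hx : ‖x‖ < 2
  · have h1 : ContinuousAt (fun x => cG (F (cH x))) x :=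
      cG_cont.continuousAt.comp (hFc.continuousAt.comp (cH_cont x hx))
    refine h1.congr ?_
    filter_upwards [(isOpen_lt continuous_norm continuous_const).mem_nhds hx] with y hy
    rw [cT, if_pos hy]
  · have hTx : cT F x = x := by rw [cT, if_neg hx]
    have h1 : Tendsto (fun y => cT F y - y) (𝓝 x) (𝓝 0) := by
      have h2 : Tendsto (fun y : V => 4 * ε * max 0 (2 - max ‖y‖ 1)) (𝓝 x) (𝓝 0) := by
        have hc : Continuous fun y : V => 4 * ε * max 0 (2 - max ‖y‖ 1) :=
          continuous_const.mul (continuous_const.max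
            (continuous_const.sub (continuous_norm.max continuous_const)))
        have := hc.tendsto x
        have h3 : 4 * ε * max 0 (2 - max ‖x‖ 1) = 0 := by
          push Not at hx
          rw [max_eq_left (by linarith : (1 : ℝ) ≤ ‖x‖), max_eq_left (by linarith), mul_zero]
        rwa [h3] at this
      exact squeeze_zero_norm (fun y => cT_near hε hF y) h2
    have h2 := h1.add (tendsto_id (α := V) (x := 𝓝 x))
    rw [zero_add] at h2
    rw [ContinuousAt, hTx]
    refine h2.congr fun y => ?_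
    simp

theorem cT_inv {F F' : V → V} (h : ∀ x, F' (F x) = x) (x : V) : cT F' (cT F x) = x := by
  by_cases hx : ‖x‖ < 2
  · rw [cT, cT, if_pos hx, if_pos (cG_lt _), cH_cG, h, cG_cH x hx]
  · rw [cT, cT, if_neg hx, if_neg hx]

end Cmp

variable {ι : Type} [Fintype ι] [DecidableEq ι]

omit [DecidableEq ι] in
/-- (P3) -/
theorem compress : S_Compress ι := by
  intro F ε hε hε4 hF
  have hF' : ∀ y, ‖F.symm y - y‖ ≤ ε := by
    intro y
    have h := hF (F.symm y)
    rwa [F.apply_symm_apply, norm_sub_rev] at h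
  refine ⟨{ toFun := cT F, invFun := cT F.symm
            left_inv := cT_inv F.symm_apply_apply
            right_inv := cT_inv F.apply_symm_apply
            continuous_toFun := cT_cont F.continuous hε hF
            continuous_invFun := cT_cont F.symm.continuous hε hF' }, ?_, ?_, ?_, ?_⟩
  · intro x
    show ‖cT F x - x‖ ≤ 10 * ε
    refine (cT_near hε hF x).trans ?_
    have h1 := one_le_mx x
    have h2 : max 0 (2 - max ‖x‖ 1) ≤ 1 := max_le (by norm_num) (by linarith)
    have h3 : 4 * ε * max 0 (2 - max ‖x‖ 1) ≤ 4 * ε * 1 := by gcongr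
    linarith
  · intro x hx
    show cT F x = F x
    have h1 : cH x = x := by
      rw [cH, max_eq_right (by linarith)]; norm_num
    have h2 : ‖F x‖ ≤ 1 := by
      have h3 : ‖F x‖ ≤ ‖F x - x‖ + ‖x‖ := by
        calc ‖F x‖ = ‖(F x - x) + x‖ := by rw [sub_add_cancel]
          _ ≤ _ := norm_add_le _ _
      have := hF x
      linarith
    rw [cT, if_pos (by linarith), h1, cG, max_eq_right h2]
    norm_num
  · intro x hx
    show cT F x = x
    rw [cT, if_neg (by linarith)]
  · intro x hx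
    show cT F x = x
    by_cases h : ‖x‖ < 2
    · have h1 := one_le_mx x
      have h2 : max ‖x‖ 1 < 2 := max_lt h (by norm_num)
      have h3 : F (cH x) = cH x := by
        apply hx
        have h5 : 0 < (2 - max ‖x‖ 1) * max ‖x‖ 1 := mul_pos (by linarith) (by linarith)
        rw [le_div_iff₀ h5]
        nlinarith [sq_nonneg (max ‖x‖ 1 - 1)]
      rw [cT, if_pos h, h3, cG_cH x h]
    · rw [cT, if_neg h]

end Pool.Agent.Helper1.LE
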