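import Pool.Agent.Helper1.LE.Defs
import Pool.Graph.R_seed8.H815.HF.InvDom

/-! Package P0: invariance of domain in `ι → ℝ`, covering, and near-identity embeddings of the whole
space. -/

set_option autoImplicit false

open Set Filter Topology

namespace Pool.Agent.Helper1.LE.Dom

variable {ι : Type} [Fintype ι]

theorem invDom : S_InvDom ι := by
  intro f S x hS hc hi
  let e := (EuclideanSpace.equiv ι ℝ).toHomeomorph
  have hS' : e ⁻¹' S ∈ 𝓝 (e.symm x) := by
    refine e.continuous.continuousAt ?_
    rwa [e.apply_symm_apply]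
  obtain ⟨r, hr, hrS⟩ := Metric.nhds_basis_closedBall.mem_iff.1 hS'
  have h := Pool.Agent.H815.HF.InvDom.image_mem_nhds (fun y => e.symm (f (e y))) (e.symm x) r hr
    (e.symm.continuous.comp_continuousOn (hc.comp e.continuous.continuousOn fun y hy => hrS hy))
    (fun a ha b hb hab => e.injective (hi (hrS ha) (hrS hb) (e.symm.injective hab)))
  have h2 : e.symm (f (e (e.symm x))) = e.symm (f x) := by rw [e.apply_symm_apply]
  rw [h2] at h
  have h3 : e.symm ⁻¹' ((fun y => e.symm (f (e y))) '' Metric.closedBall (e.symm x) r) ∈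
      𝓝 (f x) := e.symm.continuous.continuousAt h
  refine mem_of_superset h3 ?_
  rintro v ⟨y, hy, hyv⟩
  exact ⟨e y, hrS hy, e.symm.injective hyv⟩

theorem cover : S_Cover ι := by
  intro f p r δ hδ0 hδ hf
  obtain ⟨hc, hi, hn⟩ := hf
  have hr : 0 < r := by linarith
  have hpB : p ∈ Metric.closedBall p r := Metric.mem_closedBall_self hr.le
  have hK : IsCompact (f '' Metric.closedBall p r) := (isCompact_closedBall p r).image_of_continuousOn hc
  have hV : IsPreconnected (Metric.ball p (r - δ)) := (convex_ball p (r - δ)).isPreconnected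
  have hsub : Metric.ball p (r - δ) ⊆ interior (f '' Metric.closedBall p r) := by
    refine IsPreconnected.subset_left_of_subset_union isOpen_interior hK.isClosed.isOpen_compl
      (disjoint_compl_right.mono_left interior_subset) ?_ ?_ hV
    · intro v hv
      by_cases hvK : v ∈ f '' Metric.closedBall p r
      · left
        obtain ⟨x, hx, rfl⟩ := hvK
        rw [mem_interior_iff_mem_nhds]
        refine invDom f _ x ?_ hc hi
        refine Metric.closedBall_mem_nhds_of_mem ?_
        have h1 := hn x hx
        rw [Metric.mem_ball, dist_eq_norm] at hv ⊢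
        calc ‖x - p‖ = ‖(f x - p) - (f x - x)‖ := by congr 1; abel
          _ ≤ ‖f x - p‖ + ‖f x - x‖ := norm_sub_le _ _
          _ < r := by linarith
      · exact Or.inr hvK
    · refine ⟨f p, ?_, ?_⟩
      · rw [Metric.mem_ball, dist_eq_norm]
        linarith [hn p hpB]
      · rw [mem_interior_iff_mem_nhds]
        exact invDom f _ p (Metric.closedBall_mem_nhds p hr) hc hi
  obtain ⟨x, hx, hxp⟩ := interior_subset (hsub (Metric.mem_ball_self (by linarith : 0 < r - δ)))
  refine ⟨x, ?_, hxp⟩
  rw [Metric.mem_closedBall, dist_comm, dist_eq_norm, ← hxp]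
  exact hn x hx

theorem homeo : S_Homeo ι := by
  intro f δ hf
  have hδ0 : 0 ≤ δ := (norm_nonneg _).trans (hf.2.2 0 (mem_univ _))
  have hsurj : Function.Surjective f := fun p => by
    obtain ⟨x, -, hx⟩ := cover f p (2 * δ + 1) δ hδ0 (by linarith)
      ⟨hf.1.mono (subset_univ _), hf.2.1.mono (subset_univ _), fun x _ => hf.2.2 x (mem_univ _)⟩
    exact ⟨x, hx⟩
  have hinj : Function.Injective f := injOn_univ.1 hf.2.1
  have hcont : Continuous f := continuousOn_univ.1 hf.1
  have hopen : IsOpenMap f := by
    intro U hU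
    rw [isOpen_iff_mem_nhds]
    rintro _ ⟨x, hx, rfl⟩
    exact invDom f U x (hU.mem_nhds hx) hcont.continuousOn hinj.injOn
  exact ⟨(Equiv.ofBijective f ⟨hinj, hsurj⟩).toHomeomorphOfContinuousOpen hcont hopen, fun x => rfl⟩

end Pool.Agent.Helper1.LE.Dom
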