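import Pool.Agent.Helper1.LE.Defs

/-! Package P2: two-sided extension in one direction and extension in all directions. -/

set_option autoImplicit false

open Set Filter Topology

namespace Pool.Agent.Helper1.LE.Ext

variable {ι : Type} [Fintype ι] [DecidableEq ι]

/-- the reflection in the direction `i` -/
def R (i : ι) (x : ι → ℝ) : ι → ℝ := Function.update x i (-x i)

lemma R_same (i : ι) (x : ι → ℝ) : R i x i = -x i := by simp [R]

lemma R_ne {i j : ι} (h : j ≠ i) (x : ι → ℝ) : R i x j = x j := by simp [R, h]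

lemma R_R (i : ι) (x : ι → ℝ) : R i (R i x) = x := by
  funext j
  by_cases h : j = i
  · subst h
    rw [R_same, R_same, neg_neg]
  · rw [R_ne h, R_ne h]

lemma R_norm (i : ι) (x y : ι → ℝ) : ‖R i x - R i y‖ ≤ ‖x - y‖ := by
  refine (pi_norm_le_iff_of_nonneg (norm_nonneg _)).2 fun j => ?_
  refine le_trans ?_ (norm_le_pi_norm (x - y) j)
  rw [Pi.sub_apply, Pi.sub_apply]
  by_cases h : j = i
  · subst h
    rw [R_same, R_same]
    have : -x j - -y j = -(x j - y j) := by ring
    rw [this, norm_neg]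
  · rw [R_ne h, R_ne h]

lemma R_cont (i : ι) : Continuous (R i : (ι → ℝ) → ι → ℝ) := by
  unfold R
  fun_prop

lemma R_inj (i : ι) : Function.Injective (R i : (ι → ℝ) → ι → ℝ) := fun x y h => by
  rw [← R_R i x, h, R_R]

lemma R_mem_Dm {i : ι} {J : Finset ι} (hi : i ∉ J) {w : ℝ} {x : ι → ℝ} (hx : x ∈ Dm J w) :
    R i x ∈ Dm J w := by
  intro j hj
  have hji : j ≠ i := by
    rintro rfl
    exact hi hj
  rw [R_ne hji]
  exact hx j hj

/-- conjugation with the reflection -/
lemma Near.conj {i : ι} {A B : Set (ι → ℝ)} {δ : ℝ} {g : (ι → ℝ) → (ι → ℝ)} (h : Near A δ g)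
    (hB : ∀ x ∈ B, R i x ∈ A) : Near B δ (fun x => R i (g (R i x))) := by
  obtain ⟨h1, h2, h3⟩ := h
  refine ⟨?_, ?_, ?_⟩
  · exact (R_cont i).comp_continuousOn (h1.comp (R_cont i).continuousOn hB)
  · intro x hx y hy hxy
    exact R_inj i (h2 (hB x hx) (hB y hy) (R_inj i hxy))
  · intro x hx
    calc ‖R i (g (R i x)) - x‖ = ‖R i (g (R i x)) - R i (R i x)‖ := by rw [R_R]
      _ ≤ ‖g (R i x) - R i x‖ := R_norm i _ _
      _ ≤ δ := h3 _ (hB x hx)

lemma Near.mono {A B : Set (ι → ℝ)} {δ : ℝ} {g : (ι → ℝ) → (ι → ℝ)} (h : Near A δ g)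
    (hB : B ⊆ A) : Near B δ g :=
  ⟨h.1.mono hB, h.2.1.mono hB, fun x hx => h.2.2 x (hB hx)⟩

lemma R_update (i : ι) (x : ι → ℝ) (t : ℝ) :
    R i (Function.update x i t) = Function.update (R i x) i (-t) := by
  unfold R
  rw [Function.update_idem, Function.update_idem, Function.update_self]

theorem ls (h : S_LSp ι) : S_LS ι := by
  intro i J hi w δ hδ0 hδ g Z hZ hg hgZ
  have hdom : {x : ι → ℝ | x ∈ Dm J w ∧ x i ∈ Ici (-4 : ℝ) ∧ x i ≤ 4} =
      {x | x ∈ Dm J w ∧ |x i| ≤ 4} := by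
    ext x
    simp only [mem_ofPred_eq, mem_Ici, abs_le]
  obtain ⟨F1, hF1, hF1g, hF1Z⟩ := h i J hi w (Ici (-4)) (Or.inr rfl) δ hδ0 (by linarith) g Z hZ
    (by rw [hdom]; exact hg) (fun x hx h1 h2 h3 => hgZ x hx h1 (abs_le.2 ⟨h2, h3⟩))
  have hN2 : Near {x : ι → ℝ | x ∈ Dm J (w - 1) ∧ x i ∈ (univ : Set ℝ) ∧ x i ≤ 4} (5 * δ)
      (fun x => R i (F1 (R i x))) := by
    refine Near.conj hF1 fun x hx => ⟨R_mem_Dm hi hx.1, ?_⟩
    rw [mem_Ici, R_same]
    linarith [hx.2.2]
  obtain ⟨F2, hF2, hF2g, hF2Z⟩ := h i J hi (w - 1) univ (Or.inl rfl) (5 * δ) (by linarith)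
    (by linarith) (fun x => R i (F1 (R i x))) {x | R i x ∈ Z} (fun x hx t => by
      change R i (Function.update x i t) ∈ Z
      rw [R_update]
      exact hZ _ hx _) hN2 (fun x hx h1 _ h3 => by
      change R i (F1 (R i x)) = x
      rw [hF1Z (R i x) hx (R_mem_Dm hi h1) (by rw [mem_Ici, R_same]; linarith), R_R])
  refine ⟨fun x => R i (F2 (R i x)), ?_, ?_, ?_⟩
  · have h1 : Near (Dm J (w - 2)) (5 * (5 * δ)) (fun x => R i (F2 (R i x))) := by
      refine Near.conj hF2 fun x hx => ⟨?_, mem_univ _⟩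
      have e : w - 1 - 1 = w - 2 := by ring
      rw [e]
      exact R_mem_Dm hi hx
    have e : 25 * δ = 5 * (5 * δ) := by ring
    rw [e]
    exact h1
  · intro x hx hxi
    have e : w - 1 - 1 = w - 2 := by ring
    have h1 : R i x ∈ Dm J (w - 1 - 1) := by
      rw [e]
      exact R_mem_Dm hi hx
    have h2 := hF2g (R i x) h1 (mem_univ _) (by rw [R_same]; linarith [(abs_le.1 hxi).1])
    change R i (F2 (R i x)) = g x
    rw [h2, R_R, R_R]
    refine hF1g x (fun j hj => (hx j hj).trans (by linarith)) ?_ (abs_le.1 hxi).2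
    rw [mem_Ici]
    linarith [(abs_le.1 hxi).1]
  · intro x hx hxD
    have e : w - 1 - 1 = w - 2 := by ring
    have h1 : R i x ∈ Dm J (w - 1 - 1) := by
      rw [e]
      exact R_mem_Dm hi hxD
    change R i (F2 (R i x)) = x
    rw [hF2Z (R i x) (by change R i (R i x) ∈ Z; rwa [R_R]) h1 (mem_univ _), R_R]

theorem ext (h : S_LS ι) : S_Ext ι := by
  intro J
  induction J using Finset.induction_on with
  | empty =>
    intro w _ δ _ _ g Z _ hg hgZ
    have hD : ∀ w, Dm (∅ : Finset ι) w = univ := by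
      intro w
      ext x
      simp [Dm]
    rw [hD] at hg
    refine ⟨g, by rw [Finset.card_empty, pow_zero, one_mul]; exact hg, fun x _ => rfl,
      fun x hx => hgZ x hx (by rw [hD]; exact mem_univ _)⟩
  | insert i J hi ih =>
    intro w hw δ hδ0 hδ g Z hZ hg hgZ
    rw [Finset.card_insert_of_notMem hi] at hw hδ
    push_cast at hw
    have hc0 : (0 : ℝ) ≤ (J.card : ℝ) := Nat.cast_nonneg _
    have hpow : (1 : ℝ) ≤ 25 ^ J.card := one_le_pow₀ (by norm_num)
    have hδ' : δ ≤ 1 / 500 := by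
      rw [pow_succ] at hδ
      nlinarith
    obtain ⟨F1, hF1, hF1g, hF1Z⟩ := h i J hi w δ hδ0 hδ' g Z (fun x hx t => by
        refine hZ x _ hx fun j hj => ?_
        have hji : j ≠ i := by
          rintro rfl
          exact hj (Finset.mem_insert_self _ _)
        rw [Function.update_of_ne hji])
      (Near.mono hg (by
        rintro x ⟨h1, h2⟩ j hj
        rcases Finset.mem_insert.1 hj with rfl | hj
        · linarith
        · exact h1 j hj))
      (fun x hx h1 h2 => hgZ x hx (by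
        intro j hj
        rcases Finset.mem_insert.1 hj with rfl | hj
        · linarith
        · exact h1 j hj))
    obtain ⟨F, hF, hFg, hFZ⟩ := ih (w - 2) (by linarith) (25 * δ) (by linarith)
      (by rw [← mul_assoc, ← pow_succ]; exact hδ) F1 Z
      (fun x y hx hy => hZ x y hx fun j hj => hy j fun h => hj (Finset.mem_insert_of_mem h))
      hF1 hF1Z
    refine ⟨F, ?_, ?_, hFZ⟩
    · rw [Finset.card_insert_of_notMem hi, pow_succ, mul_assoc]
      exact hF
    · intro x hx
      have h1 : x ∈ Dm J 1 := fun j hj => hx j (Finset.mem_insert_of_mem hj)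
      rw [hFg x h1]
      exact hF1g x (fun j hj => (h1 j hj).trans (by linarith)) (hx i (Finset.mem_insert_self _ _))

end Pool.Agent.Helper1.LE.Ext
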