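import Pool.Agent.Helper1.LE.Defs

/-!
P4: composition of straightenings and the handle lemma.
-/

set_option autoImplicit false

open Set Filter Topology

namespace Pool.Agent.Helper1.LE

variable {ι : Type} [Fintype ι] [DecidableEq ι]

omit [DecidableEq ι] in
/-- (P4a) -/
theorem strComp : S_StrComp ι := by
  intro S A B P B' B'' P' _ _ hst1 hst2 hB' ε hε
  obtain ⟨δ2, hδ2, H2⟩ := hst2 (ε / 2) (by positivity)
  obtain ⟨δ1, hδ1, H1⟩ := hst1 (min (ε / 2) (δ2 / 2)) (by positivity)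
  refine ⟨min δ1 (δ2 / 2), by positivity, fun g hg hgA => ?_⟩
  obtain ⟨hgc, hgi, hgn⟩ := hg
  obtain ⟨T1, hT1n, hT1P, hT1B⟩ := H1 g
    ⟨hgc, hgi, fun x hx => (hgn x hx).trans (min_le_left _ _)⟩ hgA
  have hT1s : ∀ y, ‖T1.symm y - y‖ ≤ δ2 / 2 := by
    intro y
    have h := hT1n (T1.symm y)
    rw [T1.apply_symm_apply, norm_sub_rev] at h
    exact h.trans (min_le_right _ _)
  have hnear : Near S δ2 (fun x => T1.symm (g x)) := by
    refine ⟨T1.symm.continuous.comp_continuousOn hgc, ?_, ?_⟩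
    · intro x hx y hy hxy
      exact hgi hx hy (T1.symm.injective hxy)
    · intro x hx
      have h1 := hT1s (g x)
      have h2 := (hgn x hx).trans (min_le_right _ _)
      calc ‖T1.symm (g x) - x‖ = ‖(T1.symm (g x) - g x) + (g x - x)‖ := by congr 1; abel
        _ ≤ ‖T1.symm (g x) - g x‖ + ‖g x - x‖ := norm_add_le _ _
        _ ≤ δ2 := by linarith
  obtain ⟨T2, hT2n, hT2P, hT2B⟩ := H2 _ hnear (by
    intro x hx
    rcases hB' x hx with h | ⟨h, h'⟩
    · show T1.symm (g x) = x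
      rw [← hT1B x h, T1.symm_apply_apply]
    · show T1.symm (g x) = x
      rw [hgA x h, T1.symm_apply_eq, hT1P x h'])
  refine ⟨T2.trans T1, fun x => ?_, fun x hx => ?_, fun x hx => ?_⟩
  · have h1 := (hT1n (T2 x)).trans (min_le_left _ _)
    have h2 := hT2n x
    calc ‖(T2.trans T1) x - x‖ = ‖(T1 (T2 x) - T2 x) + (T2 x - x)‖ := by
          rw [Homeomorph.trans_apply]; congr 1; abel
      _ ≤ ‖T1 (T2 x) - T2 x‖ + ‖T2 x - x‖ := norm_add_le _ _
      _ ≤ ε := by linarith
  · rw [mem_union, not_or] at hx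
    rw [Homeomorph.trans_apply, hT2P x hx.2, hT1P x hx.1]
  · rw [Homeomorph.trans_apply, hT2B x hx]
    exact T1.apply_symm_apply _

/-- (P4b) -/
theorem hl (h1 : S_Ext ι) (h2 : S_Homeo ι) (h3 : S_Compress ι) : S_HL ι := by
  intro s a ha ha2 ε hε
  set n := (sᶜ : Finset ι).card with hn
  have h25 : (0 : ℝ) < 25 ^ n := by positivity
  set δ : ℝ := min (min (1 / (100 * 25 ^ n)) (ε / (10 * 25 ^ n))) ((1 / 2 - a) / 2) with hδ
  have hδ0 : 0 < δ := by
    refine lt_min (lt_min (by positivity) (by positivity)) (by linarith)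
  have hδ1 : 25 ^ n * δ ≤ 1 / 100 := by
    have : δ ≤ 1 / (100 * 25 ^ n) := (min_le_left _ _).trans (min_le_left _ _)
    calc 25 ^ n * δ ≤ 25 ^ n * (1 / (100 * 25 ^ n)) := by gcongr
      _ = 1 / 100 := by field_simp
  have hδ2 : 10 * (25 ^ n * δ) ≤ ε := by
    have : δ ≤ ε / (10 * 25 ^ n) := (min_le_left _ _).trans (min_le_right _ _)
    calc 10 * (25 ^ n * δ) ≤ 10 * (25 ^ n * (ε / (10 * 25 ^ n))) := by gcongr
      _ = ε := by field_simp
  have hδ3 : δ < 1 / 2 - a := by
    have : δ ≤ (1 / 2 - a) / 2 := min_le_right _ _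
    linarith
  refine ⟨δ, hδ0, fun g hg hgA => ?_⟩
  obtain ⟨hgc, hgi, hgn⟩ := hg
  classical
  set W := WW ι with hW
  set K1 : Set (ι → ℝ) := {x : ι → ℝ | (∀ i ∈ s, |x i| ≤ 1 / 2) ∧ ∀ i, i ∉ s → |x i| ≤ W} with hK1
  set K2 : Set (ι → ℝ) := {x : ι → ℝ | (∃ i ∈ s, a ≤ |x i|) ∧ x ∈ Dm sᶜ W} with hK2
  set g0 : (ι → ℝ) → (ι → ℝ) := fun x => if ∀ i ∈ s, |x i| ≤ 1 / 2 then g x else x with hg0
  have hDm : ∀ x, x ∈ Dm (sᶜ : Finset ι) W ↔ ∀ i, i ∉ s → |x i| ≤ W := by
    intro x
    simp [Dm]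
  have hg01 : ∀ x ∈ K1, g0 x = g x := fun x hx => if_pos hx.1
  have hg02 : ∀ x ∈ K2, g0 x = x := by
    intro x hx
    by_cases h : ∀ i ∈ s, |x i| ≤ 1 / 2
    · show (if ∀ i ∈ s, |x i| ≤ 1 / 2 then g x else x) = x
      rw [if_pos h]
      exact hgA x ⟨⟨h, (hDm x).1 hx.2⟩, hx.1⟩
    · exact if_neg h
  have hcov : Dm (sᶜ : Finset ι) W = K1 ∪ K2 := by
    ext x
    constructor
    · intro hx
      by_cases h : ∀ i ∈ s, |x i| ≤ 1 / 2
      · exact Or.inl ⟨h, (hDm x).1 hx⟩
      · push Not at h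
        obtain ⟨i, hi, hi'⟩ := h
        exact Or.inr ⟨⟨i, hi, by linarith⟩, hx⟩
    · rintro (hx | hx)
      · exact (hDm x).2 hx.2
      · exact hx.2
  have hcl1 : IsClosed K1 := by
    have : K1 = (⋂ i, ⋂ (_ : i ∈ s), {x : ι → ℝ | |x i| ≤ 1 / 2}) ∩
        ⋂ i, ⋂ (_ : i ∉ s), {x : ι → ℝ | |x i| ≤ W} := by
      ext x; simp [hK1]
    rw [this]
    refine IsClosed.inter ?_ ?_ <;>
    exact isClosed_iInter fun i => isClosed_iInter fun _ =>
      isClosed_le (continuous_abs.comp (continuous_apply i)) continuous_const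
  have hclD : IsClosed (Dm (sᶜ : Finset ι) W) := by
    have : Dm (sᶜ : Finset ι) W = ⋂ i, ⋂ (_ : i ∉ s), {x : ι → ℝ | |x i| ≤ W} := by
      ext x; rw [hDm]; simp
    rw [this]
    exact isClosed_iInter fun i => isClosed_iInter fun _ =>
      isClosed_le (continuous_abs.comp (continuous_apply i)) continuous_const
  have hcl2 : IsClosed K2 := by
    have : K2 = (⋃ i ∈ s, {x : ι → ℝ | a ≤ |x i|}) ∩ Dm (sᶜ : Finset ι) W := by
      ext x; simp [hK2]
    rw [this]
    refine IsClosed.inter ?_ hclD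
    exact s.finite_toSet.isClosed_biUnion fun i _ =>
      isClosed_le continuous_const (continuous_abs.comp (continuous_apply i))
  have hnear : Near (Dm (sᶜ : Finset ι) W) δ g0 := by
    refine ⟨?_, ?_, ?_⟩
    · rw [hcov]
      refine ContinuousOn.union_of_isClosed ?_ ?_ hcl1 hcl2
      · exact hgc.congr hg01
      · exact continuousOn_id.congr hg02
    · intro x hx y hy hxy
      have key : ∀ x ∈ Dm (sᶜ : Finset ι) W, ∀ y ∈ Dm (sᶜ : Finset ι) W, g0 x = g0 y →
          (∀ i ∈ s, |x i| ≤ 1 / 2) → ¬ (∀ i ∈ s, |y i| ≤ 1 / 2) → False := by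
        intro x hx y hy hxy h h'
        have hxK : x ∈ K1 := ⟨h, (hDm x).1 hx⟩
        rw [hg01 x hxK, show g0 y = y from if_neg h'] at hxy
        push Not at h'
        obtain ⟨i, hi, hi'⟩ := h'
        have h4 : |y i - x i| ≤ δ := by
          have := (norm_le_pi_norm (g x - x) i).trans (hgn x hxK)
          rw [hxy] at this
          simpa using this
        have h5 : a ≤ |x i| := by
          have := abs_sub_abs_le_abs_sub (y i) (x i)
          linarith
        have h6 := hgA x ⟨hxK, i, hi, h5⟩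
        rw [hxy] at h6
        have := h i hi
        rw [← h6] at this
        linarith
      by_cases h : ∀ i ∈ s, |x i| ≤ 1 / 2 <;> by_cases h' : ∀ i ∈ s, |y i| ≤ 1 / 2
      · have hxK : x ∈ K1 := ⟨h, (hDm x).1 hx⟩
        have hyK : y ∈ K1 := ⟨h', (hDm y).1 hy⟩
        rw [hg01 x hxK, hg01 y hyK] at hxy
        exact hgi hxK hyK hxy
      · exact (key x hx y hy hxy h h').elim
      · exact (key y hy x hx hxy.symm h' h).elim
      · rwa [show g0 x = x from if_neg h, show g0 y = y from if_neg h'] at hxy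
    · intro x hx
      rw [hcov] at hx
      rcases hx with hx | hx
      · rw [hg01 x hx]; exact hgn x hx
      · rw [hg02 x hx, sub_self, norm_zero]; exact hδ0.le
  have hWle : 2 * ((sᶜ : Finset ι).card : ℝ) + 4 ≤ W := by
    rw [hW, WW]
    have : ((sᶜ : Finset ι).card : ℝ) ≤ (Fintype.card ι : ℝ) := by
      exact_mod_cast Finset.card_le_univ _
    linarith
  obtain ⟨F, hFn, hF1, hFZ⟩ := h1 sᶜ W hWle δ hδ0.le hδ1 g0 {x | ∃ i ∈ s, a ≤ |x i|}
    (by
      rintro x y ⟨i, hi, hi'⟩ hxy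
      exact ⟨i, hi, by rw [hxy i (by simpa using hi)]; exact hi'⟩) hnear
    (fun x hx hx' => hg02 x ⟨hx, hx'⟩)
  obtain ⟨TF, hTF⟩ := h2 F _ hFn
  have hε' : (25 : ℝ) ^ n * δ ≤ 1 / 4 := by linarith
  obtain ⟨T, hTn, hT1, hT2, hT3⟩ := h3 TF (25 ^ n * δ) (by positivity) hε' (fun x => by
    rw [hTF]; exact hFn.2.2 x (mem_univ x))
  refine ⟨T, fun x => (hTn x).trans hδ2, fun x hx => ?_, fun x hx => ?_⟩
  · by_cases hz : ∃ i ∈ s, a ≤ |x i|
    · apply hT3
      intro r hr
      rw [hTF]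
      apply hFZ
      obtain ⟨i, hi, hi'⟩ := hz
      refine ⟨i, hi, ?_⟩
      rw [Pi.smul_apply, smul_eq_mul, abs_mul, abs_of_nonneg (by linarith : (0 : ℝ) ≤ r)]
      nlinarith [abs_nonneg (x i)]
    · push Not at hz
      have : ∃ i, i ∉ s ∧ 2 ≤ |x i| := by
        by_contra hc
        push Not at hc
        exact hx ⟨hz, hc⟩
      obtain ⟨i, _, hi'⟩ := this
      apply hT2
      exact hi'.trans (norm_le_pi_norm x i)
  · have hx' : ‖x‖ ≤ 1 / 2 := by
      rw [pi_norm_le_iff_of_nonneg (by norm_num)]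
      exact hx
    rw [hT1 x hx', hTF, hF1 x (fun j _ => (hx j).trans (by norm_num))]
    exact if_pos fun i _ => hx i

omit [DecidableEq ι] in
/-- Transport by a bi-Lipschitz homeomorphism. -/
theorem strConj (Λ : (ι → ℝ) ≃ₜ (ι → ℝ)) {M m : ℝ} (hM : 0 < M) (hm : 0 < m)
    (h1 : ∀ y y', ‖Λ y - Λ y'‖ ≤ M * ‖y - y'‖)
    (h2 : ∀ x x', ‖Λ.symm x - Λ.symm x'‖ ≤ m * ‖x - x'‖)
    {S A B P S' A' B' P' : Set (ι → ℝ)} (hS : ∀ y ∈ S', Λ y ∈ S) (hA : ∀ y ∈ A', Λ y ∈ A)
    (hB : ∀ x ∈ B, Λ.symm x ∈ B') (hP : ∀ x, x ∉ P → Λ.symm x ∉ P') (h : Str S' A' B' P') :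
    Str S A B P := by
  intro ε hε
  obtain ⟨δ0, hδ0, H⟩ := h (ε / M) (by positivity)
  refine ⟨δ0 / m, by positivity, fun g hg hgA => ?_⟩
  obtain ⟨hgc, hgi, hgn⟩ := hg
  obtain ⟨T, hTn, hTP, hTB⟩ := H (fun y => Λ.symm (g (Λ y))) (by
    refine ⟨?_, ?_, ?_⟩
    · exact Λ.symm.continuous.comp_continuousOn (hgc.comp Λ.continuous.continuousOn hS)
    · intro x hx y hy hxy
      exact Λ.injective (hgi (hS x hx) (hS y hy) (Λ.symm.injective hxy))
    · intro x hx
      have h3 := h2 (g (Λ x)) (Λ x)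
      rw [Λ.symm_apply_apply] at h3
      refine h3.trans ?_
      have h4 := hgn (Λ x) (hS x hx)
      rw [le_div_iff₀ hm] at h4
      linarith) (by
    intro x hx
    show Λ.symm (g (Λ x)) = x
    rw [hgA (Λ x) (hA x hx), Λ.symm_apply_apply])
  refine ⟨Λ.symm.trans (T.trans Λ), fun x => ?_, fun x hx => ?_, fun x hx => ?_⟩
  · show ‖Λ (T (Λ.symm x)) - x‖ ≤ ε
    have h3 := h1 (T (Λ.symm x)) (Λ.symm x)
    rw [Λ.apply_symm_apply] at h3
    refine h3.trans ?_
    have h4 := hTn (Λ.symm x)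
    rw [le_div_iff₀ hM] at h4
    linarith
  · show Λ (T (Λ.symm x)) = x
    rw [hTP _ (hP x hx), Λ.apply_symm_apply]
  · show Λ (T (Λ.symm x)) = g x
    rw [hTB _ (hB x hx), Λ.apply_symm_apply, Λ.apply_symm_apply]

/-- The affine map `y ↦ c + λ y`. -/
noncomputable def aff (c l : ι → ℝ) (hl : ∀ i, l i ≠ 0) : (ι → ℝ) ≃ₜ (ι → ℝ) where
  toFun y := fun i => c i + l i * y i
  invFun x := fun i => (x i - c i) / l i
  left_inv y := by
    funext i
    have := hl i
    field_simp
    ring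
  right_inv x := by
    funext i
    have := hl i
    field_simp
    ring
  continuous_toFun := by fun_prop
  continuous_invFun := by
    refine continuous_pi fun i => ?_
    exact ((continuous_apply i).sub continuous_const).div_const _

/-- (P4c) -/
theorem hlBox (h : S_HL ι) : S_HLbox ι := by
  intro s c w η b hη hηw hb
  have hW4 : (4 : ℝ) ≤ WW ι := by
    rw [WW]
    have : (0 : ℝ) ≤ (Fintype.card ι : ℝ) := Nat.cast_nonneg _
    linarith
  have hW0 : (0 : ℝ) < WW ι := by linarith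
  have hw : 0 < w := by linarith
  set l : ι → ℝ := fun i => if i ∈ s then w else b / WW ι with hl
  have hlp : ∀ i, 0 < l i := by
    intro i
    simp only [hl]
    split_ifs <;> positivity
  have hls : ∀ i ∈ s, l i = w := fun i hi => if_pos hi
  have hlc : ∀ i, i ∉ s → l i = b / WW ι := fun i hi => if_neg hi
  set Λ := aff c l (fun i => (hlp i).ne') with hΛ
  have hΛa : ∀ y i, Λ y i - c i = l i * y i := by
    intro y i
    show (c i + l i * y i) - c i = _
    ring
  have hΛs : ∀ x i, l i * Λ.symm x i = x i - c i := by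
    intro x i
    show l i * ((x i - c i) / l i) = _
    field_simp [(hlp i).ne']
  have habs : ∀ x i, |x i - c i| = l i * |Λ.symm x i| := by
    intro x i
    rw [← hΛs x i, abs_mul, abs_of_pos (hlp i)]
  have habs' : ∀ y i, |Λ y i - c i| = l i * |y i| := by
    intro x i
    rw [hΛa x i, abs_mul, abs_of_pos (hlp i)]
  refine strConj Λ (M := w + b / WW ι) (m := 1 / w + WW ι / b) (by positivity) (by positivity)
    ?_ ?_ ?_ ?_ ?_ ?_ (h s (1 / 2 - η / w) ?_ ?_)
  · intro y y'
    rw [pi_norm_le_iff_of_nonneg (by positivity)]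
    intro i
    have h1 : (Λ y - Λ y') i = l i * (y - y') i := by
      show (c i + l i * y i) - (c i + l i * y' i) = l i * (y i - y' i)
      ring
    rw [h1, Real.norm_eq_abs, abs_mul, abs_of_pos (hlp i)]
    have h2 : l i ≤ w + b / WW ι := by
      simp only [hl]
      have : 0 < b / WW ι := by positivity
      split_ifs <;> linarith
    have h3 : |(y - y') i| ≤ ‖y - y'‖ := norm_le_pi_norm (y - y') i
    gcongr
  · intro y y'
    rw [pi_norm_le_iff_of_nonneg (by positivity)]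
    intro i
    have h1 : (Λ.symm y - Λ.symm y') i = (1 / l i) * (y - y') i := by
      show (y i - c i) / l i - (y' i - c i) / l i = 1 / l i * (y i - y' i)
      ring
    rw [h1, Real.norm_eq_abs, abs_mul, abs_of_pos (one_div_pos.mpr (hlp i))]
    have h2 : 1 / l i ≤ 1 / w + WW ι / b := by
      by_cases hi : i ∈ s
      · rw [hls i hi]
        have : 0 < WW ι / b := by positivity
        linarith
      · rw [hlc i hi, one_div_div]
        have : 0 < 1 / w := by positivity
        linarith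
    have h3 : |(y - y') i| ≤ ‖y - y'‖ := norm_le_pi_norm (y - y') i
    gcongr
  · rintro y ⟨hy1, hy2⟩
    refine ⟨fun i hi => ?_, fun i hi => ?_⟩
    · rw [habs', hls i hi]
      have := hy1 i hi
      nlinarith
    · rw [habs', hlc i hi]
      have := hy2 i hi
      calc b / WW ι * |y i| ≤ b / WW ι * WW ι := by gcongr
        _ = b := by field_simp
  · rintro y ⟨⟨hy1, hy2⟩, j, hj, hj'⟩
    refine ⟨⟨fun i hi => ?_, fun i hi => ?_⟩, j, hj, ?_⟩
    · rw [habs', hls i hi]
      have := hy1 i hi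
      nlinarith
    · rw [habs', hlc i hi]
      have := hy2 i hi
      calc b / WW ι * |y i| ≤ b / WW ι * WW ι := by gcongr
        _ = b := by field_simp
    · rw [habs', hls j hj]
      calc w / 2 - η = w * (1 / 2 - η / w) := by field_simp
        _ ≤ w * |y j| := by gcongr
  · rintro x ⟨hx1, hx2⟩ i
    by_cases hi : i ∈ s
    · have := hx1 i hi
      rw [habs, hls i hi] at this
      nlinarith
    · have := hx2 i hi
      rw [habs, hlc i hi] at this
      have h3 : b / (2 * WW ι) = b / WW ι * (1 / 2) := by field_simp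
      rw [h3] at this
      exact le_of_mul_le_mul_left this (by positivity)
  · rintro x hx ⟨hx1, hx2⟩
    apply hx
    refine ⟨fun i hi => ?_, fun i hi => ?_⟩
    · rw [habs, hls i hi]
      calc w * |Λ.symm x i| < w * (1 / 2 - η / w) := by
            have := hx1 i hi
            gcongr
        _ = w / 2 - η := by field_simp
    · rw [habs, hlc i hi]
      calc b / WW ι * |Λ.symm x i| < b / WW ι * 2 := by
            have := hx2 i hi
            gcongr
        _ ≤ b := by
          rw [div_mul_eq_mul_div, div_le_iff₀ hW0]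
          nlinarith
  · have : η / w < 1 / 2 := by
      rw [div_lt_iff₀ hw]; linarith
    linarith
  · have : 0 < η / w := by positivity
    linarith

end Pool.Agent.Helper1.LE
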