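import Pool.Agent.Helper1.LE.Defs

/-! (P1) One-sided extension in one direction. -/

set_option autoImplicit false
set_option linter.unusedSectionVars false

open Set Filter Topology

namespace Pool.Agent.Helper1.LE.LSp

variable {ι : Type} [Fintype ι] [DecidableEq ι]

/-- change the coordinate `i` by `f` -/
def up (i : ι) (f : ℝ → ℝ) (x : ι → ℝ) : ι → ℝ := Function.update x i (f (x i))

omit [Fintype ι] in
theorem up_same (i : ι) (f : ℝ → ℝ) (x : ι → ℝ) : up i f x i = f (x i) := by simp [up]

omit [Fintype ι] in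
theorem up_ne {i j : ι} (h : j ≠ i) (f : ℝ → ℝ) (x : ι → ℝ) : up i f x j = x j := by simp [up, h]

omit [Fintype ι] in
theorem up_up (i : ι) (f g : ℝ → ℝ) (x : ι → ℝ) : up i f (up i g x) = up i (fun t => f (g t)) x := by
  simp [up]

omit [Fintype ι] in
theorem up_eq_self {i : ι} {f : ℝ → ℝ} {x : ι → ℝ} (h : f (x i) = x i) : up i f x = x := by
  simp [up, h]

omit [Fintype ι] in
theorem up_congr {i : ι} {f g : ℝ → ℝ} {x : ι → ℝ} (h : f (x i) = g (x i)) :
    up i f x = up i g x := by
  simp [up, h]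

omit [Fintype ι] in
theorem up_inj {i : ι} {f : ℝ → ℝ} (hf : Function.Injective f) {x y : ι → ℝ}
    (h : up i f x = up i f y) : x = y := by
  funext j
  have := congrFun h j
  by_cases hj : j = i
  · subst hj
    rw [up_same, up_same] at this
    exact hf this
  · rwa [up_ne hj, up_ne hj] at this

theorem up_lip (i : ι) (f : ℝ → ℝ) (K : ℝ) (hK : 1 ≤ K) (hf : ∀ a b, |f a - f b| ≤ K * |a - b|)
    (x y : ι → ℝ) : ‖up i f x - up i f y‖ ≤ K * ‖x - y‖ := by
  have h0 : 0 ≤ K * ‖x - y‖ := by positivity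
  rw [pi_norm_le_iff_of_nonneg h0]
  intro j
  have hj := norm_le_pi_norm (x - y) j
  rw [Pi.sub_apply, Real.norm_eq_abs] at hj ⊢
  by_cases h : j = i
  · subst h
    rw [up_same, up_same]
    exact (hf _ _).trans (mul_le_mul_of_nonneg_left hj (by linarith))
  · rw [up_ne h, up_ne h]
    have : 0 ≤ ‖x - y‖ := norm_nonneg _
    nlinarith

theorem up_cont (i : ι) (f : ℝ → ℝ) (hf : Continuous f) : Continuous (up i f : (ι → ℝ) → ι → ℝ) := by
  unfold up
  exact continuous_id.update i (hf.comp (continuous_apply i))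

/-- the stretching -/
noncomputable def s (t : ℝ) : ℝ :=
  if t ≤ -4 / 5 then t else if t ≤ 4 / 5 then -4 / 5 + 9 / 4 * (t + 4 / 5) else t + 2

/-- the contraction -/
noncomputable def q (t : ℝ) : ℝ :=
  if t ≤ -4 / 5 then t + 2 else if t ≤ 14 / 5 then 6 / 5 + 4 / 9 * (t + 4 / 5) else t

theorem s_bd {a b : ℝ} (h : a ≤ b) : s b - s a ≤ 9 / 4 * (b - a) ∧ b - a ≤ s b - s a := by
  unfold s
  split_ifs <;> constructor <;> linarith

theorem q_bd {a b : ℝ} (h : a ≤ b) : q b - q a ≤ b - a ∧ 4 / 9 * (b - a) ≤ q b - q a := by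
  unfold q
  split_ifs <;> constructor <;> linarith

theorem s_lip (a b : ℝ) : |s a - s b| ≤ 9 / 4 * |a - b| := by
  rcases le_total a b with h | h
  · have := s_bd h
    rw [abs_sub_comm, abs_sub_comm a b, abs_of_nonneg (by linarith : (0 : ℝ) ≤ s b - s a),
      abs_of_nonneg (by linarith : (0 : ℝ) ≤ b - a)]
    exact this.1
  · have := s_bd h
    rw [abs_of_nonneg (by linarith : (0 : ℝ) ≤ s a - s b),
      abs_of_nonneg (by linarith : (0 : ℝ) ≤ a - b)]
    exact this.1

theorem q_lip (a b : ℝ) : |q a - q b| ≤ 1 * |a - b| := by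
  rw [one_mul]
  rcases le_total a b with h | h
  · have := q_bd h
    rw [abs_sub_comm, abs_sub_comm a b, abs_of_nonneg (by linarith : (0 : ℝ) ≤ q b - q a),
      abs_of_nonneg (by linarith : (0 : ℝ) ≤ b - a)]
    exact this.1
  · have := q_bd h
    rw [abs_of_nonneg (by linarith : (0 : ℝ) ≤ q a - q b),
      abs_of_nonneg (by linarith : (0 : ℝ) ≤ a - b)]
    exact this.1

theorem s_cont : Continuous s := by
  have : LipschitzWith ⟨9 / 4, by norm_num⟩ s := LipschitzWith.of_dist_le_mul fun a b => by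
    rw [Real.dist_eq, Real.dist_eq]; exact s_lip a b
  exact this.continuous

theorem q_cont : Continuous q := by
  have : LipschitzWith ⟨1, by norm_num⟩ q := LipschitzWith.of_dist_le_mul fun a b => by
    rw [Real.dist_eq, Real.dist_eq]; exact q_lip a b
  exact this.continuous

theorem s_inj : Function.Injective s := by
  intro a b h
  rcases le_total a b with h' | h'
  · have := s_bd h'; linarith
  · have := s_bd h'; linarith

theorem q_inj : Function.Injective q := by
  intro a b h
  rcases le_total a b with h' | h'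
  · have := q_bd h'; linarith
  · have := q_bd h'; linarith

theorem s_low {t : ℝ} (h : t ≤ -4 / 5) : s t = t := by simp only [s, if_pos h]

theorem s_high {t : ℝ} (h : 4 / 5 ≤ t) : s t = t + 2 := by
  unfold s; split_ifs <;> linarith

theorem q_low {t : ℝ} (h : t ≤ -4 / 5) : q t = t + 2 := by simp only [q, if_pos h]

theorem q_high {t : ℝ} (h : 14 / 5 ≤ t) : q t = t := by
  unfold q; split_ifs <;> linarith

theorem q_s (t : ℝ) : q (s t) = t + 2 := by
  unfold s
  split_ifs with h1 h2
  · exact q_low h1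
  · unfold q; split_ifs <;> linarith
  · exact q_high (by linarith)

/-- the domain -/
def AA (i : ι) (J : Finset ι) (w : ℝ) (L : Set ℝ) : Set (ι → ℝ) :=
  {x | x ∈ Dm J w ∧ x i ∈ L ∧ x i ≤ 4}

/-- one slab -/
def U0 (i : ι) (J : Finset ι) (w : ℝ) : Set (ι → ℝ) := {u | u ∈ Dm J (w - 1) ∧ -1 ≤ u i ∧ u i ≤ 1}

theorem mem_L {L : Set ℝ} (hL : L = univ ∨ L = Ici (-4)) {t : ℝ} (h : -4 ≤ t) : t ∈ L := by
  rcases hL with rfl | rfl
  · trivial
  · exact h

theorem coord_le {x y : ι → ℝ} {c : ℝ} (h : ‖x - y‖ ≤ c) (j : ι) : |x j - y j| ≤ c :=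
  (norm_le_pi_norm (x - y) j).trans h

theorem U0_sub {i : ι} {J : Finset ι} {w : ℝ} {L : Set ℝ} (hL : L = univ ∨ L = Ici (-4)) :
    U0 i J w ⊆ AA i J w L := by
  intro u hu
  refine ⟨fun j hj => (hu.1 j hj).trans (by linarith), mem_L hL (by linarith [hu.2.1]), ?_⟩
  linarith [hu.2.2]

/-- the point `S (g u)` is far inside of the domain -/
theorem ball_sub {i : ι} {J : Finset ι} (hiJ : i ∉ J) {w : ℝ} {L : Set ℝ}
    (hL : L = univ ∨ L = Ici (-4)) {δ : ℝ} (hδ : δ ≤ 1 / 100) {g : (ι → ℝ) → (ι → ℝ)}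
    (hg : Near (AA i J w L) δ g) {u : ι → ℝ} (hu : u ∈ U0 i J w) :
    Metric.closedBall (up i s (g u)) (1 / 2) ⊆ AA i J w L := by
  intro y hy
  rw [mem_closedBall_iff_norm] at hy
  have h1 := hg.2.2 u (U0_sub hL hu)
  have hs1 : s (g u i) ≤ 3 + δ ∧ -1 - δ ≤ s (g u i) := by
    have h2 := abs_le.mp (coord_le h1 i)
    have h3 := hu.2.1
    have h4 := hu.2.2
    constructor
    · unfold s; split_ifs <;> linarith
    · unfold s; split_ifs <;> linarith
  have hyi := abs_le.mp (coord_le hy i)
  rw [up_same] at hyi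
  refine ⟨fun j hj => ?_, mem_L hL (by linarith), by linarith⟩
  have hji : j ≠ i := fun h => hiJ (h ▸ hj)
  have hyj := abs_le.mp (coord_le hy j)
  rw [up_ne hji] at hyj
  have h2 := abs_le.mp (coord_le h1 j)
  have h3 := abs_le.mp (hu.1 j hj)
  exact abs_le.mpr ⟨by linarith, by linarith⟩

theorem phi_exists (hc : S_Cover ι) {i : ι} {J : Finset ι} (hiJ : i ∉ J) {w : ℝ} {L : Set ℝ}
    (hL : L = univ ∨ L = Ici (-4)) {δ : ℝ} (hδ0 : 0 ≤ δ) (hδ : δ ≤ 1 / 100)
    {g : (ι → ℝ) → (ι → ℝ)} (hg : Near (AA i J w L) δ g) :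
    ∃ φ : (ι → ℝ) → (ι → ℝ), ContinuousOn φ (U0 i J w) ∧ ∀ u ∈ U0 i J w,
      φ u ∈ AA i J w L ∧ g (φ u) = up i s (g u) ∧ ‖φ u - up i s (g u)‖ ≤ δ := by
  have hex : ∀ u, ∃ y, u ∈ U0 i J w → y ∈ AA i J w L ∧ g y = up i s (g u) ∧
      ‖y - up i s (g u)‖ ≤ δ := by
    intro u
    by_cases hu : u ∈ U0 i J w
    · have hb := ball_sub hiJ hL hδ hg hu
      obtain ⟨y, hy, hgy⟩ := hc g (up i s (g u)) (1 / 2) δ hδ0 (by linarith)
        ⟨hg.1.mono hb, hg.2.1.mono hb, fun x hx => hg.2.2 x (hb hx)⟩
      rw [mem_closedBall_iff_norm] at hy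
      refine ⟨y, fun _ => ⟨hb ?_, hgy, hy⟩⟩
      rw [mem_closedBall_iff_norm]
      linarith
    · exact ⟨0, fun h => absurd h hu⟩
  choose φ hφ using hex
  refine ⟨φ, ?_, hφ⟩
  intro u hu
  have hSg : Tendsto (fun u' => up i s (g u')) (𝓝[U0 i J w] u) (𝓝 (up i s (g u))) := by
    have h1 : ContinuousWithinAt g (U0 i J w) u := (hg.1.mono (U0_sub hL)) u hu
    exact ((up_cont i s s_cont).tendsto _).comp h1
  have hK : Metric.closedBall (up i s (g u)) (1 / 4) ⊆ AA i J w L :=
    (Metric.closedBall_subset_closedBall (by norm_num)).trans (ball_sub hiJ hL hδ hg hu)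
  have hev : ∀ᶠ u' in 𝓝[U0 i J w] u, φ u' ∈ Metric.closedBall (up i s (g u)) (1 / 4) := by
    have h1 := hSg.eventually (Metric.ball_mem_nhds (up i s (g u)) (by norm_num : (0 : ℝ) < 1 / 8))
    filter_upwards [h1, self_mem_nhdsWithin] with u' h1 h2
    rw [Metric.mem_closedBall]
    have h3 := (hφ u' h2).2.2
    rw [← dist_eq_norm] at h3
    calc dist (φ u') (up i s (g u)) ≤ dist (φ u') (up i s (g u')) +
        dist (up i s (g u')) (up i s (g u)) := dist_triangle _ _ _
      _ ≤ 1 / 4 := by
        have : dist (up i s (g u')) (up i s (g u)) < 1 / 8 := h1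
        linarith
  refine (isCompact_closedBall (up i s (g u)) (1 / 4)).tendsto_nhds_of_unique_mapClusterPt hev ?_
  intro x hx hcl
  rw [mapClusterPt_iff_ultrafilter] at hcl
  obtain ⟨U, hU, hUx⟩ := hcl
  have hUK : Tendsto φ U (𝓝[Metric.closedBall (up i s (g u)) (1 / 4)] x) :=
    tendsto_nhdsWithin_iff.mpr ⟨hUx, hU hev⟩
  have h1 : Tendsto (fun u' => g (φ u')) U (𝓝 (g x)) := ((hg.1.mono hK) x hx).tendsto.comp hUK
  have h2 : Tendsto (fun u' => g (φ u')) U (𝓝 (up i s (g u))) := by
    refine (hSg.mono_left hU).congr' ?_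
    have : ∀ᶠ u' in 𝓝[U0 i J w] u, up i s (g u') = g (φ u') := by
      filter_upwards [self_mem_nhdsWithin] with u' h
      exact (hφ u' h).2.1.symm
    exact hU this
  have h3 := tendsto_nhds_unique h1 h2
  exact hg.2.1 (hK hx) (hφ u hu).1 (by rw [h3, (hφ u hu).2.1])

omit [Fintype ι] in
theorem up_shift_cont (i : ι) (c : ℝ) : Continuous (up i (fun t => t + c) : (ι → ℝ) → ι → ℝ) := by
  unfold up
  exact continuous_id.update i ((continuous_apply i).add continuous_const)

/-- the slab maps -/
noncomputable def Fj (i : ι) (φ g : (ι → ℝ) → (ι → ℝ)) (j : ℕ) (x : ι → ℝ) : ι → ℝ :=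
  up i (fun t => t + 2 * j) (g (up i q (φ (up i (fun t => t + -(2 * (j + 1))) x))))

/-- the extension -/
noncomputable def FF (i : ι) (φ g : (ι → ℝ) → (ι → ℝ)) (x : ι → ℝ) : ι → ℝ :=
  if x i ≤ 1 then g x else Fj i φ g ⌈(x i - 3) / 2⌉₊ x

theorem lsp (hc : S_Cover ι) : S_LSp ι := by
  intro i J hiJ w L hL δ hδ0 hδ g Z hZ hg hgZ
  obtain ⟨φ, hφc, hφ⟩ := phi_exists hc hiJ hL hδ0 hδ hg
  have hUA := U0_sub (i := i) (J := J) (w := w) hL
  -- (F1)
  have F1 : ∀ u ∈ U0 i J w, u i ≤ -9 / 10 → φ u = u := by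
    intro u hu hui
    have h1 := abs_le.mp (coord_le (hg.2.2 u (hUA hu)) i)
    have h2 : up i s (g u) = g u := up_eq_self (s_low (by linarith))
    exact hg.2.1 (hφ u hu).1 (hUA hu) (by rw [(hφ u hu).2.1, h2])
  -- (F2)
  have F2 : ∀ u ∈ U0 i J w, 9 / 10 ≤ u i → up i s (g u) = up i (fun t => t + 2) (g u) ∧
      up i q (φ u) = φ u := by
    intro u hu hui
    have h1 := abs_le.mp (coord_le (hg.2.2 u (hUA hu)) i)
    have h2 : up i s (g u) = up i (fun t => t + 2) (g u) := up_congr (s_high (by linarith))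
    refine ⟨h2, up_eq_self (q_high ?_)⟩
    have h3 := abs_le.mp (coord_le (hφ u hu).2.2 i)
    rw [h2, up_same] at h3
    linarith
  -- (F3)
  have F3 : ∀ u ∈ U0 i J w, -1 < u i → -1 < φ u i := by
    intro u hu hui
    by_cases h : u i ≤ -9 / 10
    · rw [F1 u hu h]; exact hui
    · have h1 := abs_le.mp (coord_le (hg.2.2 u (hUA hu)) i)
      have h3 := abs_le.mp (coord_le (hφ u hu).2.2 i)
      rw [up_same] at h3
      have h4 : g u i ≤ s (g u i) := by
        rcases le_total (g u i) (-4 / 5) with h5 | h5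
        · rw [s_low h5]
        · have := s_bd h5
          rw [s_low (le_refl _)] at this
          linarith
      linarith
  have F4 : ∀ u ∈ U0 i J w, φ u i ≤ 3 + 2 * δ := by
    intro u hu
    have h1 := abs_le.mp (coord_le (hg.2.2 u (hUA hu)) i)
    have h3 := abs_le.mp (coord_le (hφ u hu).2.2 i)
    rw [up_same] at h3
    have h4 : s (g u i) ≤ 3 + δ := by
      have h5 : g u i ≤ 1 + δ := by linarith [hu.2.2]
      have h6 := (s_bd h5).2
      rw [s_high (by linarith : (4 : ℝ) / 5 ≤ 1 + δ)] at h6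
      linarith
    linarith
  have F5 : ∀ u ∈ U0 i J w, -1 - 2 * δ ≤ φ u i := by
    intro u hu
    by_cases h : u i ≤ -9 / 10
    · rw [F1 u hu h]; linarith [hu.2.1]
    · linarith [F3 u hu (by linarith)]
  have F6 : ∀ u ∈ U0 i J w, up i q (φ u) ∈ AA i J w L := by
    intro u hu
    have h1 := F4 u hu
    have h2 := F5 u hu
    have h3 : q (φ u i) ≤ 3 + 2 * δ := by
      have := (q_bd h1).2
      rw [q_high (by linarith : (14 : ℝ) / 5 ≤ 3 + 2 * δ)] at this
      linarith
    have h4 : -4 ≤ q (φ u i) := by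
      have := (q_bd h2).1
      have h5 : q (-1 - 2 * δ) = -1 - 2 * δ + 2 := q_low (by linarith)
      have := (q_bd h2).2
      linarith
    refine ⟨fun j hj => ?_, ?_, ?_⟩
    · have hji : j ≠ i := fun h => hiJ (h ▸ hj)
      rw [up_ne hji]
      exact (hφ u hu).1.1 j hj
    · rw [up_same]; exact mem_L hL h4
    · rw [up_same]; linarith
  have F7 : ∀ u ∈ U0 i J w, -1 < u i → 1 < up i q (φ u) i := by
    intro u hu hui
    rw [up_same]
    have h1 := F3 u hu hui
    have h2 := (q_bd h1.le).2
    rw [q_low (by norm_num : (-1 : ℝ) ≤ -4 / 5)] at h2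
    linarith
  have F8 : ∀ u ∈ U0 i J w, up i q (φ u) i ≤ 3 + 2 * δ := by
    intro u hu
    rw [up_same]
    have := (q_bd (F4 u hu)).2
    rw [q_high (by linarith : (14 : ℝ) / 5 ≤ 3 + 2 * δ)] at this
    have := F4 u hu
    linarith
  -- shifts of points of the domain
  have hshift : ∀ x : ι → ℝ, x ∈ Dm J (w - 1) → ∀ j : ℕ, 1 + 2 * (j : ℝ) ≤ x i →
      x i ≤ 3 + 2 * j → up i (fun t => t + -(2 * ((j : ℝ) + 1))) x ∈ U0 i J w := by
    intro x hx j h1 h2
    refine ⟨fun l hl => ?_, ?_, ?_⟩
    · have hli : l ≠ i := fun h => hiJ (h ▸ hl)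
      rw [up_ne hli]; exact hx l hl
    · rw [up_same]; linarith
    · rw [up_same]; linarith
  -- the formula on the closed slabs
  have hFj : ∀ x : ι → ℝ, x ∈ Dm J (w - 1) → ∀ j : ℕ, 1 + 2 * (j : ℝ) ≤ x i →
      x i ≤ 3 + 2 * j → FF i φ g x = Fj i φ g j x := by
    intro x hx j h1 h2
    by_cases h3 : x i ≤ 1
    · have hj : (j : ℝ) = 0 := by
        have : (0 : ℝ) ≤ j := Nat.cast_nonneg j
        linarith
      have hxi : x i = 1 := by linarith
      have hu := hshift x hx j h1 h2
      have hφu := F1 _ hu (by rw [up_same]; linarith)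
      unfold FF Fj
      rw [if_pos h3, hφu, up_up, hj]
      have h4 : up i (fun t => q (t + -(2 * (0 + 1)))) x = x := by
        apply up_eq_self
        rw [q_low (by linarith)]
        ring
      rw [h4]
      symm
      apply up_eq_self
      ring
    · push Not at h3
      set j₀ := ⌈(x i - 3) / 2⌉₊ with hj₀
      have h4 : FF i φ g x = Fj i φ g j₀ x := by
        unfold FF; rw [if_neg (by linarith)]
      have h5 : (x i - 3) / 2 ≤ j₀ := Nat.le_ceil _
      have h6 : j₀ ≤ j := by
        apply Nat.ceil_le.mpr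
        linarith
      rcases h6.eq_or_lt with h7 | h7
      · rw [h4, h7]
      · have h8 : ((j₀ : ℝ)) + 1 ≤ j := by exact_mod_cast h7
        have h9 : x i = 1 + 2 * j := by linarith
        have h10 : (j : ℝ) = j₀ + 1 := by linarith
        have hu := hshift x hx j h1 h2
        have hφu := F1 _ hu (by rw [up_same]; linarith)
        have hu₀ := hshift x hx j₀ (by linarith) (by linarith)
        obtain ⟨h11, h12⟩ := F2 _ hu₀ (by rw [up_same]; linarith)
        rw [h4]
        unfold Fj
        rw [hφu, h12, (hφ _ hu₀).2.1, h11, up_up, up_up]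
        have h13 : up i (fun t => q (t + -(2 * ((j : ℝ) + 1)))) x =
            up i (fun t => t + -(2 * ((j₀ : ℝ) + 1))) x := by
          apply up_congr
          rw [q_low (by linarith)]
          linarith
        rw [h13]
        congr 1
        funext t
        linarith
  have hrep : ∀ x : ι → ℝ, x ∈ Dm J (w - 1) → 1 < x i → ∃ (j : ℕ) (u : ι → ℝ), u ∈ U0 i J w ∧
      -1 < u i ∧ x = up i (fun t => t + 2 * ((j : ℝ) + 1)) u ∧
      FF i φ g x = up i (fun t => t + 2 * (j : ℝ)) (g (up i q (φ u))) := by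
    intro x hx hxi
    set j₀ := ⌈(x i - 3) / 2⌉₊ with hj₀
    have h5 : (x i - 3) / 2 ≤ j₀ := Nat.le_ceil _
    have h6 : 1 + 2 * (j₀ : ℝ) < x i := by
      by_cases h7 : j₀ = 0
      · rw [h7]; simpa using hxi
      · have h8 : 0 < (x i - 3) / 2 := by
          by_contra h9
          push Not at h9
          exact h7 (Nat.ceil_eq_zero.mpr h9)
        have h9 := Nat.ceil_lt_add_one h8.le
        rw [← hj₀] at h9
        linarith
    refine ⟨j₀, up i (fun t => t + -(2 * ((j₀ : ℝ) + 1))) x,
      hshift x hx j₀ h6.le (by linarith), ?_, ?_, ?_⟩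
    · rw [up_same]; linarith
    · rw [up_up]
      symm
      apply up_eq_self
      ring
    · exact hFj x hx j₀ h6.le (by linarith)
  refine ⟨FF i φ g, ⟨?_, ?_, ?_⟩, ?_, ?_⟩
  · -- continuity
    let f : ℕ → Set (ι → ℝ) := fun n => Nat.casesOn n
      {x | (x ∈ Dm J (w - 1) ∧ x i ∈ L) ∧ x i ≤ 1}
      (fun j => {x | (x ∈ Dm J (w - 1) ∧ x i ∈ L) ∧ 1 + 2 * (j : ℝ) ≤ x i ∧ x i ≤ 3 + 2 * j})
    have hLc : IsClosed L := by
      rcases hL with rfl | rfl
      · exact isClosed_univ
      · exact isClosed_Ici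
    have hDc : IsClosed {x : ι → ℝ | x ∈ Dm J (w - 1) ∧ x i ∈ L} := by
      refine IsClosed.inter ?_ (hLc.preimage (continuous_apply i))
      have : Dm J (w - 1) = ⋂ j ∈ J, {x : ι → ℝ | |x j| ≤ w - 1} := by
        ext x; simp [Dm]
      change IsClosed (Dm J (w - 1))
      rw [this]
      exact isClosed_biInter fun j _ => isClosed_le (continuous_apply j).abs continuous_const
    have hcov : {x : ι → ℝ | x ∈ Dm J (w - 1) ∧ x i ∈ L} ⊆ ⋃ n, f n := by
      intro x hx
      rw [mem_iUnion]
      by_cases h : x i ≤ 1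
      · exact ⟨0, hx, h⟩
      · push Not at h
        obtain ⟨j, u, hu, -, hxu, -⟩ := hrep x hx.1 h
        have h1 : x i = u i + 2 * ((j : ℝ) + 1) := by
          conv_lhs => rw [hxu]
          rw [up_same]
        exact ⟨j + 1, hx, by linarith [hu.2.1], by linarith [hu.2.2]⟩
    refine ContinuousOn.mono (LocallyFinite.continuousOn_iUnion (f := f) ?_ ?_ ?_) hcov
    · intro x
      refine ⟨{y | y i < x i + 1}, (isOpen_lt (continuous_apply i) continuous_const).mem_nhds
        (by simp), (Set.finite_Iio (⌈x i⌉₊ + 2)).subset ?_⟩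
      rintro n ⟨y, hy, hyx⟩
      rw [mem_Iio]
      cases n with
      | zero => omega
      | succ j =>
        have h1 : 1 + 2 * (j : ℝ) ≤ y i := hy.2.1
        have h2 : y i < x i + 1 := hyx
        have h3 : x i ≤ ⌈x i⌉₊ := Nat.le_ceil _
        have h4 : (2 * (j : ℝ)) < ⌈x i⌉₊ := by linarith
        have h5 : 2 * j < ⌈x i⌉₊ := by exact_mod_cast h4
        omega
    · intro n
      cases n with
      | zero => exact hDc.inter (isClosed_le (continuous_apply i) continuous_const)
      | succ j =>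
        exact hDc.inter ((isClosed_le continuous_const (continuous_apply i)).inter
          (isClosed_le (continuous_apply i) continuous_const))
    · intro n
      cases n with
      | zero =>
        refine ContinuousOn.congr (f := g) (hg.1.mono ?_) ?_
        · rintro x ⟨⟨hx, hxL⟩, h⟩
          exact ⟨fun l hl => (hx l hl).trans (by linarith), hxL, by linarith⟩
        · rintro x ⟨-, h⟩
          unfold FF; rw [if_pos h]
      | succ j =>
        refine ContinuousOn.congr (f := Fj i φ g j) ?_ ?_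
        · have h1 : ContinuousOn (fun x : ι → ℝ => φ (up i (fun t => t + -(2 * ((j : ℝ) + 1))) x))
              (f (j + 1)) := by
            refine hφc.comp (up_shift_cont i _).continuousOn ?_
            rintro x ⟨⟨hx, -⟩, h1, h2⟩
            exact hshift x hx j h1 h2
          have h2 : ContinuousOn (fun x : ι → ℝ => up i q (φ (up i (fun t =>
              t + -(2 * ((j : ℝ) + 1))) x))) (f (j + 1)) := (up_cont i q q_cont).comp_continuousOn h1
          have h3 : ContinuousOn (fun x : ι → ℝ => g (up i q (φ (up i (fun t =>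
              t + -(2 * ((j : ℝ) + 1))) x)))) (f (j + 1)) := by
            refine hg.1.comp h2 ?_
            rintro x ⟨⟨hx, -⟩, h1, h2⟩
            exact F6 _ (hshift x hx j h1 h2)
          exact (up_shift_cont i _).comp_continuousOn h3
        · rintro x ⟨⟨hx, -⟩, h1, h2⟩
          exact hFj x hx j h1 h2
  · -- injectivity
    -- heights
    have hgh : ∀ y ∈ AA i J w L, |g y i - y i| ≤ δ := fun y hy => coord_le (hg.2.2 y hy) i
    have key : ∀ (j j' : ℕ) (u u' : ι → ℝ), j ≤ j' → u ∈ U0 i J w → u' ∈ U0 i J w → -1 < u i →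
        -1 < u' i → up i (fun t => t + 2 * (j : ℝ)) (g (up i q (φ u))) =
          up i (fun t => t + 2 * (j' : ℝ)) (g (up i q (φ u'))) → j = j' ∧ u = u' := by
      intro j j' u u' hjj hu hu' hui hui' heq
      have hzA := F6 u hu
      have hzA' := F6 u' hu'
      have hz1 := F7 u hu hui
      have hz1' := F7 u' hu' hui'
      have hz3 := F8 u hu
      have hh := abs_le.mp (hgh _ hzA)
      have hh' := abs_le.mp (hgh _ hzA')
      have hi := congrFun heq i
      rw [up_same, up_same] at hi
      rcases hjj.eq_or_lt with h | h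
      · subst h
        refine ⟨rfl, ?_⟩
        have h1 := up_inj (fun a b hab => by simpa using hab) heq
        have h2 := hg.2.1 hzA hzA' h1
        have h3 := up_inj q_inj h2
        have h4 : up i s (g u) = up i s (g u') := by
          rw [← (hφ u hu).2.1, ← (hφ u' hu').2.1, h3]
        exact hg.2.1 (hUA hu) (hUA hu') (up_inj s_inj h4)
      · exfalso
        have h1 : (j : ℝ) + 1 ≤ j' := by exact_mod_cast h
        by_cases h2 : j' = j + 1
        · have h3 : (j' : ℝ) = j + 1 := by rw [h2]; push_cast; ring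
          have h4 : g (up i q (φ u)) = up i s (g (up i q (φ u'))) := by
            have h5 : up i s (g (up i q (φ u'))) = up i (fun t => t + 2) (g (up i q (φ u'))) :=
              up_congr (s_high (by linarith))
            rw [h5]
            have h6 : up i (fun t => t + 2 * (j' : ℝ)) (g (up i q (φ u'))) =
                up i (fun t => t + 2 * (j : ℝ)) (up i (fun t => t + 2) (g (up i q (φ u')))) := by
              rw [up_up]; apply up_congr; linarith
            rw [h6] at heq
            exact up_inj (fun a b hab => by simpa using hab) heq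
          have h5 : up i q (φ u) i ≥ 14 / 5 := by linarith
          have h6 : 14 / 5 ≤ φ u i := by
            by_contra h7
            push Not at h7
            rw [up_same] at h5
            have h8 := (q_bd h7.le).2
            rw [q_high le_rfl] at h8
            linarith
          have h7 : up i q (φ u) = φ u := up_eq_self (q_high h6)
          have h8 : up i s (g u) = up i s (g (up i q (φ u'))) := by
            rw [← (hφ u hu).2.1, ← h4, h7]
          have h9 := hg.2.1 (hUA hu) hzA' (up_inj s_inj h8)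
          have h10 := hu.2.2
          rw [h9] at h10
          linarith
        · have h3 : j + 2 ≤ j' := by omega
          have h4 : (j : ℝ) + 2 ≤ j' := by exact_mod_cast h3
          linarith
    have key2 : ∀ x x' : ι → ℝ, (x ∈ Dm J (w - 1) ∧ x i ∈ L) → (x' ∈ Dm J (w - 1) ∧ x' i ∈ L) →
        x i ≤ 1 → 1 < x' i → FF i φ g x ≠ FF i φ g x' := by
      intro x x' hx hx' h h' heq
      obtain ⟨j, u, hu, hui, hxu, hFx⟩ := hrep x' hx'.1 h'
      have hxA : x ∈ AA i J w L :=
        ⟨fun l hl => (hx.1 l hl).trans (by linarith), hx.2, by linarith⟩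
      have h1 : FF i φ g x = g x := by unfold FF; rw [if_pos h]
      rw [h1, hFx] at heq
      have hzA := F6 u hu
      have hz1 := F7 u hu hui
      by_cases hj : j = 0
      · have h2 : up i (fun t => t + 2 * (j : ℝ)) (g (up i q (φ u))) = g (up i q (φ u)) := by
          apply up_eq_self; rw [hj]; simp
        rw [h2] at heq
        have h3 := hg.2.1 hxA hzA heq
        rw [← h3] at hz1
        linarith
      · have h2 : (1 : ℝ) ≤ j := by exact_mod_cast Nat.one_le_iff_ne_zero.mpr hj
        have h3 := congrFun heq i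
        rw [up_same] at h3
        have h4 := abs_le.mp (hgh _ hzA)
        have h5 := abs_le.mp (hgh _ hxA)
        linarith
    intro x hx x' hx' heq
    by_cases h : x i ≤ 1
    · by_cases h' : x' i ≤ 1
      · have h1 : FF i φ g x = g x := by unfold FF; rw [if_pos h]
        have h2 : FF i φ g x' = g x' := by unfold FF; rw [if_pos h']
        rw [h1, h2] at heq
        exact hg.2.1 ⟨fun l hl => (hx.1 l hl).trans (by linarith), hx.2, by linarith⟩
          ⟨fun l hl => (hx'.1 l hl).trans (by linarith), hx'.2, by linarith⟩ heq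
      · push Not at h'
        exact absurd heq (key2 x x' hx hx' h h')
    · push Not at h
      by_cases h' : x' i ≤ 1
      · exact absurd heq.symm (key2 x' x hx' hx h' h)
      · push Not at h'
        obtain ⟨j, u, hu, hui, hxu, hFx⟩ := hrep x hx.1 h
        obtain ⟨j', u', hu', hui', hxu', hFx'⟩ := hrep x' hx'.1 h'
        rw [hFx, hFx'] at heq
        rcases le_total j j' with hjj | hjj
        · obtain ⟨h1, h2⟩ := key j j' u u' hjj hu hu' hui hui' heq
          rw [hxu, hxu', h1, h2]
        · obtain ⟨h1, h2⟩ := key j' j u' u hjj hu' hu hui' hui heq.symm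
          rw [hxu, hxu', h1, h2]
  · -- closeness
    rintro x ⟨hx, hxL⟩
    by_cases h : x i ≤ 1
    · have h1 : FF i φ g x = g x := by unfold FF; rw [if_pos h]
      rw [h1]
      have h2 := hg.2.2 x ⟨fun j hj => (hx j hj).trans (by linarith), hxL, by linarith⟩
      linarith
    · push Not at h
      obtain ⟨j, u, hu, -, hxu, hFx⟩ := hrep x hx h
      rw [hFx]
      have h1 : up i (fun t => t + 2 * (j : ℝ)) (g (up i q (φ u))) - x =
          (g (up i q (φ u)) - up i q (φ u)) + (up i q (φ u) - up i q (up i s u)) := by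
        have h2 : up i q (up i s u) = up i (fun t => t + 2) u := by
          rw [up_up]; exact up_congr (q_s _)
        rw [h2]
        funext l
        by_cases hl : l = i
        · subst hl
          rw [hxu]
          simp only [Pi.sub_apply, Pi.add_apply, up_same]
          ring
        · rw [hxu]
          simp only [Pi.sub_apply, Pi.add_apply, up_ne hl]
          ring
      rw [h1]
      have h3 := hg.2.2 _ (F6 u hu)
      have h4 : ‖up i q (φ u) - up i q (up i s u)‖ ≤ 1 * ‖φ u - up i s u‖ :=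
        up_lip i q 1 le_rfl q_lip _ _
      have h5 : ‖up i s (g u) - up i s u‖ ≤ 9 / 4 * ‖g u - u‖ :=
        up_lip i s (9 / 4) (by norm_num) s_lip _ _
      have h6 := hg.2.2 u (hUA hu)
      have h7 := (hφ u hu).2.2
      have h8 : ‖φ u - up i s u‖ ≤ ‖φ u - up i s (g u)‖ + ‖up i s (g u) - up i s u‖ := by
        have : φ u - up i s u = (φ u - up i s (g u)) + (up i s (g u) - up i s u) := by abel
        rw [this]; exact norm_add_le _ _
      have h9 := norm_add_le (g (up i q (φ u)) - up i q (φ u)) (up i q (φ u) - up i q (up i s u))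
      linarith
  · intro x hx hxL h
    unfold FF; rw [if_pos h]
  · -- fixing
    intro x hxZ hx hxL
    by_cases h : x i ≤ 1
    · have h1 : FF i φ g x = g x := by unfold FF; rw [if_pos h]
      rw [h1]
      exact hgZ x hxZ (fun j hj => (hx j hj).trans (by linarith)) hxL (by linarith)
    · push Not at h
      obtain ⟨j, u, hu, -, hxu, hFx⟩ := hrep x hx h
      have hu1 : u = up i (fun t => t + -(2 * ((j : ℝ) + 1))) x := by
        rw [hxu, up_up]
        symm
        apply up_eq_self
        ring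
      have huZ : u ∈ Z := by rw [hu1]; exact hZ x hxZ _
      have huA := hUA hu
      have hgu : g u = u := hgZ u huZ huA.1 huA.2.1 huA.2.2
      have hSZ : up i s u ∈ Z := hZ u huZ _
      have hs1 : s (u i) ≤ 3 := by
        have := (s_bd hu.2.2).2
        rw [s_high (by norm_num : (4 : ℝ) / 5 ≤ 1)] at this
        linarith [hu.2.2]
      have hs2 : -1 ≤ s (u i) := by
        have := (s_bd hu.2.1).2
        rw [s_low (by norm_num : (-1 : ℝ) ≤ -4 / 5)] at this
        linarith [hu.2.1]
      have hSA : up i s u ∈ AA i J w L := by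
        refine ⟨fun l hl => ?_, ?_, ?_⟩
        · have hli : l ≠ i := fun h => hiJ (h ▸ hl)
          rw [up_ne hli]; exact huA.1 l hl
        · rw [up_same]; exact mem_L hL (by linarith)
        · rw [up_same]; linarith
      have hgS : g (up i s u) = up i s u := hgZ _ hSZ hSA.1 hSA.2.1 hSA.2.2
      have hφu : φ u = up i s u := by
        apply hg.2.1 (hφ u hu).1 hSA
        rw [(hφ u hu).2.1, hgu, hgS]
      have hQ : up i q (φ u) = up i (fun t => t + 2) u := by
        rw [hφu, up_up]; exact up_congr (q_s _)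
      have hQA := F6 u hu
      have hQZ : up i q (φ u) ∈ Z := by rw [hQ]; exact hZ u huZ _
      have hgQ : g (up i q (φ u)) = up i q (φ u) := hgZ _ hQZ hQA.1 hQA.2.1 hQA.2.2
      rw [hFx, hgQ, hQ, up_up, hxu]
      apply up_congr
      ring

end Pool.Agent.Helper1.LE.LSp
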