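import Pool.Agent.Helper1.LE.Defs
import Pool.Agent.Helper1.LE.Dom
import Pool.Agent.Helper1.LE.LSp
import Pool.Agent.Helper1.LE.Ext
import Pool.Agent.Helper1.LE.Compress
import Pool.Agent.Helper1.LE.Handle
import Pool.Agent.Helper90.LE.Grid
import Pool.Agent.Helper90.LE.Fam

/-!
The local extension theorem for families (assembled from the packages).
-/

set_option autoImplicit false

namespace Pool.Agent.Helper1.LE

theorem le_fam : S_Fam :=
  Pool.Agent.Helper90.LE.fam fun ι _ _ =>
    Pool.Agent.Helper90.LE.grid strComp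
      (hlBox (hl (Ext.ext (Ext.ls (LSp.lsp Dom.cover))) Dom.homeo compress))

end Pool.Agent.Helper1.LE
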