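import Mathlib

/-!
Local extension of near-identity embeddings: definitions and the statements of the packages.
Everything lives in `ι → ℝ` with the sup norm.
-/

set_option autoImplicit false

open Set Filter Topology

namespace Pool.Agent.Helper1.LE

variable {ι : Type} [Fintype ι] [DecidableEq ι]

/-- `g` is continuous and injective on `A` and moves the points of `A` by at most `δ`. -/
def Near (A : Set (ι → ℝ)) (δ : ℝ) (g : (ι → ℝ) → (ι → ℝ)) : Prop :=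
  ContinuousOn g A ∧ InjOn g A ∧ ∀ x ∈ A, ‖g x - x‖ ≤ δ

/-- The points whose coordinates in `J` are bounded by `w`. -/
def Dm (J : Finset ι) (w : ℝ) : Set (ι → ℝ) := {x | ∀ j ∈ J, |x j| ≤ w}

/-- Straightening: every `g` near the identity on `S` which is the identity on `A` agrees on `B` with
a homeomorphism near the identity which is supported in `P`. -/
def Str (S A B P : Set (ι → ℝ)) : Prop :=
  ∀ ε > 0, ∃ δ > 0, ∀ g : (ι → ℝ) → (ι → ℝ), Near S δ g → (∀ x ∈ A, g x = x) →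
    ∃ T : (ι → ℝ) ≃ₜ (ι → ℝ), (∀ x, ‖T x - x‖ ≤ ε) ∧ (∀ x, x ∉ P → T x = x) ∧
      ∀ x ∈ B, T x = g x

/-- (P0a) Invariance of domain in `ι → ℝ` (transport of
`Pool.Agent.H815.HF.InvDom.image_mem_nhds` from `EuclideanSpace ℝ ι`). -/
def S_InvDom (ι : Type) [Fintype ι] : Prop :=
  ∀ (f : (ι → ℝ) → (ι → ℝ)) (S : Set (ι → ℝ)) (x : ι → ℝ), S ∈ 𝓝 x → ContinuousOn f S →
    InjOn f S → f '' S ∈ 𝓝 (f x)

/-- (P0b) A near-identity embedding of a ball covers the centre. -/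
def S_Cover (ι : Type) [Fintype ι] : Prop :=
  ∀ (f : (ι → ℝ) → (ι → ℝ)) (p : ι → ℝ) (r δ : ℝ), 0 ≤ δ → 2 * δ < r →
    Near (Metric.closedBall p r) δ f → ∃ x ∈ Metric.closedBall p δ, f x = p

/-- (P0c) A near-identity embedding of the whole space is a homeomorphism. -/
def S_Homeo (ι : Type) [Fintype ι] : Prop :=
  ∀ (f : (ι → ℝ) → (ι → ℝ)) (δ : ℝ), Near univ δ f → ∃ T : (ι → ℝ) ≃ₜ (ι → ℝ), ∀ x, T x = f x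

/-- (P1) One-sided extension in the direction `i`. `L` is `univ` or `Ici (-4)`. -/
def S_LSp (ι : Type) [Fintype ι] [DecidableEq ι] : Prop :=
  ∀ (i : ι) (J : Finset ι), i ∉ J → ∀ (w : ℝ) (L : Set ℝ), (L = univ ∨ L = Ici (-4)) →
    ∀ (δ : ℝ), 0 ≤ δ → δ ≤ 1 / 100 → ∀ (g : (ι → ℝ) → (ι → ℝ)) (Z : Set (ι → ℝ)),
    (∀ x ∈ Z, ∀ t : ℝ, Function.update x i t ∈ Z) →
    Near {x | x ∈ Dm J w ∧ x i ∈ L ∧ x i ≤ 4} δ g →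
    (∀ x ∈ Z, x ∈ Dm J w → x i ∈ L → x i ≤ 4 → g x = x) →
    ∃ F : (ι → ℝ) → (ι → ℝ), Near {x | x ∈ Dm J (w - 1) ∧ x i ∈ L} (5 * δ) F ∧
      (∀ x ∈ Dm J (w - 1), x i ∈ L → x i ≤ 1 → F x = g x) ∧
      (∀ x ∈ Z, x ∈ Dm J (w - 1) → x i ∈ L → F x = x)

/-- (P2a) Two-sided extension in the direction `i`. -/
def S_LS (ι : Type) [Fintype ι] [DecidableEq ι] : Prop :=
  ∀ (i : ι) (J : Finset ι), i ∉ J → ∀ (w : ℝ),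
    ∀ (δ : ℝ), 0 ≤ δ → δ ≤ 1 / 500 → ∀ (g : (ι → ℝ) → (ι → ℝ)) (Z : Set (ι → ℝ)),
    (∀ x ∈ Z, ∀ t : ℝ, Function.update x i t ∈ Z) →
    Near {x | x ∈ Dm J w ∧ |x i| ≤ 4} δ g →
    (∀ x ∈ Z, x ∈ Dm J w → |x i| ≤ 4 → g x = x) →
    ∃ F : (ι → ℝ) → (ι → ℝ), Near (Dm J (w - 2)) (25 * δ) F ∧
      (∀ x ∈ Dm J (w - 2), |x i| ≤ 1 → F x = g x) ∧
      (∀ x ∈ Z, x ∈ Dm J (w - 2) → F x = x)

/-- (P2b) Extension in all the directions of `J`. -/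
def S_Ext (ι : Type) [Fintype ι] [DecidableEq ι] : Prop :=
  ∀ (J : Finset ι) (w : ℝ), 2 * (J.card : ℝ) + 4 ≤ w → ∀ (δ : ℝ), 0 ≤ δ →
    25 ^ J.card * δ ≤ 1 / 100 → ∀ (g : (ι → ℝ) → (ι → ℝ)) (Z : Set (ι → ℝ)),
    (∀ x y, x ∈ Z → (∀ j, j ∉ J → y j = x j) → y ∈ Z) →
    Near (Dm J w) δ g → (∀ x ∈ Z, x ∈ Dm J w → g x = x) →
    ∃ F : (ι → ℝ) → (ι → ℝ), Near univ (25 ^ J.card * δ) F ∧
      (∀ x ∈ Dm J 1, F x = g x) ∧ (∀ x ∈ Z, F x = x)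

/-- (P3) Compression of a bounded homeomorphism. -/
def S_Compress (ι : Type) [Fintype ι] : Prop :=
  ∀ (F : (ι → ℝ) ≃ₜ (ι → ℝ)) (ε : ℝ), 0 ≤ ε → ε ≤ 1 / 4 → (∀ x, ‖F x - x‖ ≤ ε) →
    ∃ T : (ι → ℝ) ≃ₜ (ι → ℝ), (∀ x, ‖T x - x‖ ≤ 10 * ε) ∧ (∀ x, ‖x‖ ≤ 1 / 2 → T x = F x) ∧
      (∀ x, 2 ≤ ‖x‖ → T x = x) ∧
      ∀ x, (∀ r : ℝ, 1 ≤ r → F (r • x) = r • x) → T x = x

/-- (P4a) Composition of straightenings. -/
def S_StrComp (ι : Type) [Fintype ι] : Prop :=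
  ∀ S A B P B' B'' P' : Set (ι → ℝ), A ⊆ S → B ⊆ S → Str S A B P → Str S B' B'' P' →
    (∀ x ∈ B', x ∈ B ∨ (x ∈ A ∧ x ∉ P)) → Str S A B'' (P ∪ P')

/-- The width of the normalised handles. -/
def WW (ι : Type) [Fintype ι] : ℝ := 2 * (Fintype.card ι : ℝ) + 4

/-- (P4b) The normalised handle lemma. -/
def S_HL (ι : Type) [Fintype ι] [DecidableEq ι] : Prop :=
  ∀ (s : Finset ι) (a : ℝ), 0 < a → a < 1 / 2 →
    Str {x : ι → ℝ | (∀ i ∈ s, |x i| ≤ 1 / 2) ∧ ∀ i, i ∉ s → |x i| ≤ WW ι}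
      {x | ((∀ i ∈ s, |x i| ≤ 1 / 2) ∧ ∀ i, i ∉ s → |x i| ≤ WW ι) ∧ ∃ i ∈ s, a ≤ |x i|}
      {x | ∀ i, |x i| ≤ 1 / 2}
      {x | (∀ i ∈ s, |x i| < a) ∧ ∀ i, i ∉ s → |x i| < 2}

/-- The box with centre `c`, half-width `u` in the directions of `s` and `b` in the others. -/
def Bx (s : Finset ι) (c : ι → ℝ) (u b : ℝ) : Set (ι → ℝ) :=
  {x | (∀ i ∈ s, |x i - c i| ≤ u) ∧ ∀ i, i ∉ s → |x i - c i| ≤ b}

/-- (P4c) The handle lemma for a box. -/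
def S_HLbox (ι : Type) [Fintype ι] [DecidableEq ι] : Prop :=
  ∀ (s : Finset ι) (c : ι → ℝ) (h η b : ℝ), 0 < η → η < h / 2 → 0 < b →
    Str (Bx s c (h / 2) b)
      {x | x ∈ Bx s c (h / 2) b ∧ ∃ i ∈ s, h / 2 - η ≤ |x i - c i|}
      (Bx s c (h / 2) (b / (2 * WW ι)))
      {x | (∀ i ∈ s, |x i - c i| < h / 2 - η) ∧ ∀ i, i ∉ s → |x i - c i| < b}

/-- (P5) The relative local extension theorem for compact sets. -/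
def S_Grid (ι : Type) [Fintype ι] [DecidableEq ι] : Prop :=
  ∀ S C D N : Set (ι → ℝ), IsCompact S → IsCompact C → C ⊆ interior S → IsCompact D → IsOpen N →
    D ⊆ N → ∃ C' D' P : Set (ι → ℝ), IsOpen C' ∧ C ⊆ C' ∧ IsOpen D' ∧ D ⊆ D' ∧ P ⊆ S ∧
      Disjoint P D' ∧ Str S (N ∩ S) C' P

/-- (P6) The local extension theorem for families. -/
def S_Fam : Prop :=
  ∀ (κ : Type) (l : Filter κ) (E : Type) [NormedAddCommGroup E] [NormedSpace ℝ E]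
    [FiniteDimensional ℝ E] (S C D : Set E), IsCompact S → IsCompact C → C ⊆ interior S →
    IsClosed D → ∀ g : κ → E → E,
    (∀ y ∈ S, ∀ᶠ p in l ×ˢ 𝓝 y, ContinuousAt (g p.1) p.2) →
    (∀ y ∈ S, Tendsto (fun p : κ × E => g p.1 p.2) (l ×ˢ 𝓝 y) (𝓝 y)) →
    (∀ y ∈ S, ∀ᶠ p in l ×ˢ (𝓝 y ×ˢ 𝓝 y), g p.1 p.2.1 = g p.1 p.2.2 → p.2.1 = p.2.2) →
    (∀ y ∈ D, y ∈ S → ∀ᶠ p in l ×ˢ 𝓝 y, g p.1 p.2 = p.2) →
    ∃ T : κ → E ≃ₜ E, (∀ y, Tendsto (fun p : κ × E => T p.1 p.2) (l ×ˢ 𝓝 y) (𝓝 y)) ∧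
      (∀ y, Tendsto (fun p : κ × E => (T p.1).symm p.2) (l ×ˢ 𝓝 y) (𝓝 y)) ∧
      (∀ k, ∀ y, y ∉ S → T k y = y) ∧
      (∀ y ∈ C, ∀ᶠ p in l ×ˢ 𝓝 y, T p.1 p.2 = g p.1 p.2) ∧
      (∀ y ∈ D, ∀ᶠ p in l ×ˢ 𝓝 y, T p.1 p.2 = p.2)

end Pool.Agent.Helper1.LE
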